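import Pool.Agent.U530.SD.Smooth
set_option autoImplicit false

/-! Sums of densities in disjoint caps which converge to a point. -/

namespace Pool.Agent.U530.SD

open MeasureTheory Set Metric Complex Filter Topology
open Pool.Agent.H789R2.FR (E sg T sg_finite sg_ae sg_inv)
open scoped ENNReal RealInnerProductSpace ContDiff

noncomputable section

variable {n : ℕ}

/-- disjoint caps in the set `O` which converge to `x₀` -/
structure Pts (x₀ : E n) (O : Set (E n)) (x : ℕ → E n) (ρ : ℕ → ℝ) : Prop where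
  one : ∀ k, ‖x k‖ = 1
  pos : ∀ k, 0 < ρ k
  sub : ∀ k, ball (x k) (ρ k) ⊆ O
  le : ∀ k, 4 * ρ k ≤ dist (x k) x₀
  dec : ∀ k, 4 * dist (x (k + 1)) x₀ ≤ dist (x k) x₀

theorem exists_points {x₀ : E n} {O : Set (E n)} (hO : IsOpen O)
    (hacc : ∀ ε : ℝ, 0 < ε → ∃ y ∈ O, ‖y‖ = 1 ∧ 0 < dist y x₀ ∧ dist y x₀ < ε) :
    ∃ (x : ℕ → E n) (ρ : ℕ → ℝ), Pts x₀ O x ρ := by
  choose y hyO hy1 hy0 hyε using hacc
  obtain ⟨u, hu⟩ : ∃ u : ℕ → {ε : ℝ // 0 < ε}, ∀ k, (u (k + 1) : ℝ) = dist (y (u k) (u k).2) x₀ / 4 :=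
    ⟨fun k => Nat.rec ⟨1, one_pos⟩
      (fun _ v => ⟨dist (y v v.2) x₀ / 4, by have := hy0 v v.2; positivity⟩) k, fun k => rfl⟩
  have hball : ∀ k, ∃ r : ℝ, 0 < r ∧ ball (y (u k) (u k).2) r ⊆ O := fun k => by
    obtain ⟨r, hr, h⟩ := Metric.isOpen_iff.1 hO _ (hyO (u k) (u k).2)
    exact ⟨r, hr, h⟩
  choose r hr hrO using hball
  refine ⟨fun k => y (u k) (u k).2, fun k => min (r k) (dist (y (u k) (u k).2) x₀ / 4),
    fun k => hy1 _ _, fun k => lt_min (hr k) ?_, fun k => ?_, fun k => ?_, fun k => ?_⟩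
  · have := hy0 (u k) (u k).2
    positivity
  · exact (ball_subset_ball (min_le_left _ _)).trans (hrO k)
  · have := min_le_right (r k) (dist (y (u k) (u k).2) x₀ / 4)
    linarith
  · have h1 := hyε (u (k + 1)) (u (k + 1)).2
    have h2 := hu k
    linarith

variable {x₀ : E n} {O : Set (E n)} {x : ℕ → E n} {ρ : ℕ → ℝ}

theorem Pts.dist_pos (hP : Pts x₀ O x ρ) (k : ℕ) : 0 < dist (x k) x₀ := by
  have h1 := hP.pos k
  have h2 := hP.le k
  linarith

theorem Pts.cap_dist (hP : Pts x₀ O x ρ) {k : ℕ} {w : E n}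
    (hw : w ∈ ball (x k) (ρ k)) : 3 / 4 * dist (x k) x₀ < dist w x₀ ∧ dist w x₀ < 5 / 4 * dist (x k) x₀ := by
  rw [mem_ball] at hw
  have h1 := dist_triangle w (x k) x₀
  have h2 := dist_triangle (x k) w x₀
  rw [dist_comm (x k) w] at h2
  have h3 := hP.le k
  constructor <;> linarith

theorem Pts.dist_lt (hP : Pts x₀ O x ρ) {j k : ℕ} (h : j < k) : 4 * dist (x k) x₀ ≤ dist (x j) x₀ := by
  induction k with
  | zero => omega
  | succ k ih =>
    rcases Nat.lt_succ_iff_lt_or_eq.1 h with h1 | h1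
    · have h2 := ih h1
      have h3 := hP.dec k
      have h4 := hP.dist_pos k
      linarith
    · rw [h1]
      exact hP.dec k

theorem Pts.tendsto (hP : Pts x₀ O x ρ) : Tendsto (fun k => 5 / 4 * dist (x k) x₀) atTop (𝓝 0) := by
  have h1 : ∀ k, dist (x k) x₀ ≤ dist (x 0) x₀ * (1 / 4) ^ k := by
    intro k
    induction k with
    | zero => simp
    | succ k ih =>
      have := hP.dec k
      rw [pow_succ]
      linarith
  have h2 : Tendsto (fun k : ℕ => 5 / 4 * (dist (x 0) x₀ * (1 / 4) ^ k)) atTop (𝓝 0) := by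
    have h1 : Tendsto (fun k : ℕ => ((1 : ℝ) / 4) ^ k) atTop (𝓝 0) :=
      tendsto_pow_atTop_nhds_zero_of_lt_one (by norm_num) (by norm_num)
    have h3 := (h1.const_mul (dist (x 0) x₀)).const_mul (5 / 4)
    simpa using h3
  refine squeeze_zero (fun k => by positivity) (fun k => ?_) h2
  have := h1 k
  linarith

theorem Pts.disj (hP : Pts x₀ O x ρ) {j k : ℕ}
    (hjk : j ≠ k) {w : E n} (hj : w ∈ ball (x j) (ρ j)) : w ∉ ball (x k) (ρ k) := by
  intro hk
  obtain ⟨a1, a2⟩ := hP.cap_dist hj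
  obtain ⟨b1, b2⟩ := hP.cap_dist hk
  have h1 := hP.dist_pos j
  have h2 := hP.dist_pos k
  rcases lt_or_gt_of_ne hjk with h | h
  · linarith [hP.dist_lt h]
  · linarith [hP.dist_lt h]

/-- Choice of one density in each cap of a sequence of disjoint caps so that the norms of the sum
are infinite for all exponents of a countable set. -/
theorem exists_sum {C : ℕ → Set (E n)} (hC : ∀ j k, j ≠ k → ∀ w, w ∈ C j → w ∉ C k)
    {A : ℕ → Set (E n → ℝ)}
    (hA : ∀ k, ∀ φ ∈ A k, Measurable φ ∧ (∀ w, 0 ≤ φ w ∧ φ w ≤ 1) ∧ ∀ w, w ∉ C k → φ w = 0)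
    (h0 : ∀ k, (fun _ => (0 : ℝ)) ∈ A k) {ι : Type*} [Countable ι]
    {N : ι → (E n → ℂ) → ℝ≥0∞} (hN : ∀ i, Nrm (N i))
    (hbig : ∀ i k, ∀ K : ℝ≥0∞, K ≠ ⊤ → ∃ φ ∈ A k, K < N i (T fun w => (φ w : ℂ))) :
    ∃ f : ℕ → E n → ℝ, (∀ k, f k ∈ A k) ∧ Measurable (fun w => ∑' k, f k w) ∧
      (∀ w, 0 ≤ ∑' k, f k w ∧ ∑' k, f k w ≤ 1) ∧
      (∀ k, ∀ w ∈ C k, ∑' j, f j w = f k w) ∧ (∀ w, (∀ k, w ∉ C k) → ∑' j, f j w = 0) ∧
      ∀ i, N i (T fun w => ((∑' k, f k w : ℝ) : ℂ)) = ⊤ := by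
  classical
  let : ∀ k, TopologicalSpace (A k) := fun _ => ⊥
  have : ∀ k, DiscreteTopology (A k) := fun _ => ⟨rfl⟩
  -- the value of the sum
  have hin : ∀ x : (∀ k, A k), ∀ k, ∀ w ∈ C k, ∑' j, (x j : E n → ℝ) w = (x k : E n → ℝ) w := by
    intro x k w hw
    exact tsum_eq_single k fun j hj => (hA j _ (x j).2).2.2 w (hC k j hj.symm w hw)
  have hout : ∀ x : (∀ k, A k), ∀ w, (∀ k, w ∉ C k) → ∑' j, (x j : E n → ℝ) w = 0 := by
    intro x w hw
    have : ∀ j, (x j : E n → ℝ) w = 0 := fun j => (hA j _ (x j).2).2.2 w (hw j)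
    simp only [this, tsum_zero]
  have h01 : ∀ x : (∀ k, A k), ∀ w, 0 ≤ ∑' k, (x k : E n → ℝ) w ∧ ∑' k, (x k : E n → ℝ) w ≤ 1 := by
    intro x w
    by_cases h : ∃ k, w ∈ C k
    · obtain ⟨k, hk⟩ := h
      rw [hin x k w hk]
      exact (hA k _ (x k).2).2.1 w
    · push Not at h
      rw [hout x w h]
      exact ⟨le_rfl, zero_le_one⟩
  have hmeas : ∀ x : (∀ k, A k), Measurable (fun w => ∑' k, (x k : E n → ℝ) w) := by
    intro x
    have hpart : ∀ m : ℕ, Measurable fun w => ∑ k ∈ Finset.range m, (x k : E n → ℝ) w := fun m =>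
      Finset.measurable_fun_sum _ fun k _ => (hA k _ (x k).2).1
    refine measurable_of_tendsto_metrizable hpart ?_
    rw [tendsto_pi_nhds]
    intro w
    by_cases h : ∃ k, w ∈ C k
    · obtain ⟨k, hk⟩ := h
      rw [hin x k w hk]
      refine tendsto_const_nhds.congr' ?_
      filter_upwards [eventually_gt_atTop k] with m hm
      rw [Finset.sum_eq_single k (fun j _ hj => (hA j _ (x j).2).2.2 w (hC k j hj.symm w hk))
        (fun h => absurd (Finset.mem_range.2 hm) h)]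
    · push Not at h
      rw [hout x w h]
      refine tendsto_const_nhds.congr fun m => ?_
      exact (Finset.sum_eq_zero fun j _ => (hA j _ (x j).2).2.2 w (h j)).symm
  set G : (∀ k, A k) → E n → ℂ := fun x w => ((∑' k, (x k : E n → ℝ) w : ℝ) : ℂ) with hG
  have hGm : ∀ x, Measurable (G x) := fun x => Complex.measurable_ofReal.comp (hmeas x)
  have hG1 : ∀ x w, ‖G x w‖ ≤ 1 := fun x w => by
    show ‖((∑' k, (x k : E n → ℝ) w : ℝ) : ℂ)‖ ≤ 1
    rw [Complex.norm_real, Real.norm_of_nonneg (h01 x w).1]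
    exact (h01 x w).2
  have hcont : ∀ ξ, Continuous fun x : (∀ k, A k) => T (G x) ξ := by
    intro ξ
    rw [continuous_iff_seqContinuous]
    intro u x hux
    refine T_tendsto (M := 1) (fun j => hGm (u j)) (fun j => Eventually.of_forall (hG1 (u j)))
      (Eventually.of_forall fun w => ?_) ξ
    refine (Complex.continuous_ofReal.tendsto _).comp ?_
    by_cases h : ∃ k, w ∈ C k
    · obtain ⟨k, hk⟩ := h
      have e1 : (fun j => ∑' k, (u j k : E n → ℝ) w) = fun j => (u j k : E n → ℝ) w :=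
        funext fun j => hin (u j) k w hk
      rw [e1, hin x k w hk]
      have h2 := tendsto_pi_nhds.1 hux k
      rw [nhds_discrete, tendsto_pure] at h2
      refine tendsto_const_nhds.congr' ?_
      filter_upwards [h2] with j hj
      rw [hj]
    · push Not at h
      have e1 : (fun j => ∑' k, (u j k : E n → ℝ) w) = fun _ => (0 : ℝ) :=
        funext fun j => hout (u j) w h
      rw [e1, hout x w h]
      exact tendsto_const_nhds
  have hres := baire_all (X := ∀ k, A k) (fun x => T (G x)) (fun x => T_meas _ (hGm x)) hcont hN ?_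
  · obtain ⟨x, hx⟩ := (dense_of_mem_residual hres).nonempty_iff.2 ⟨fun k => ⟨_, h0 k⟩⟩
    exact ⟨fun k => x k, fun k => (x k).2, hmeas x, h01 x, hin x, hout x, hx⟩
  · intro i M
    rw [dense_iff_inter_open]
    rintro U hU ⟨x, hxU⟩
    obtain ⟨I, u, hI1, hI2⟩ := isOpen_pi_iff.1 hU x hxU
    obtain ⟨k₀, hk₀⟩ := Infinite.exists_notMem_finset I
    -- the truncated sequence
    set y : ∀ k, A k := fun k => if k ∈ I then x k else ⟨_, h0 k⟩ with hy
    have hyU : y ∈ U := hI2 fun k hk => by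
      simp only [hy]
      rw [if_pos (Finset.mem_coe.1 hk)]
      exact (hI1 k hk).2
    by_cases htop : N i (T (G y)) = ⊤
    · refine ⟨y, hyU, ?_⟩
      show (M : ℝ≥0∞) < N i (T (G y))
      rw [htop]
      exact ENNReal.natCast_lt_top M
    · obtain ⟨φ, hφ, hlt⟩ := hbig i k₀ (M + N i (T (G y))) (by finiteness)
      set z : ∀ k, A k := Function.update y k₀ ⟨φ, hφ⟩ with hz
      have hzU : z ∈ U := hI2 fun k hk => by
        have hne : k ≠ k₀ := fun h => hk₀ (h ▸ Finset.mem_coe.1 hk)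
        simp only [hz, Function.update_of_ne hne, hy]
        rw [if_pos (Finset.mem_coe.1 hk)]
        exact (hI1 k hk).2
      refine ⟨z, hzU, ?_⟩
      show (M : ℝ≥0∞) < N i (T (G z))
      have hφm := (hA k₀ φ hφ).1
      have hφ1 := (hA k₀ φ hφ).2.1
      have hφ0 := (hA k₀ φ hφ).2.2
      have hy0 : (y k₀ : E n → ℝ) = fun _ => 0 := by
        simp only [hy, if_neg hk₀]
      have e1 : (fun w => (φ w : ℂ)) = fun w => G z w + (-1) * G y w := by
        ext w
        show (φ w : ℂ) = ((∑' k, (z k : E n → ℝ) w : ℝ) : ℂ) + (-1) * ((∑' k, (y k : E n → ℝ) w : ℝ) : ℂ)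
        by_cases h : ∃ k, w ∈ C k
        · obtain ⟨k, hk⟩ := h
          rw [hin z k w hk, hin y k w hk]
          by_cases hkk : k = k₀
          · subst hkk
            simp only [hz, Function.update_self, hy0]
            simp
          · simp only [hz, Function.update_of_ne hkk]
            rw [hφ0 w (hC k k₀ hkk w hk)]
            simp
        · push Not at h
          rw [hout z w h, hout y w h, hφ0 w (h k₀)]
          simp
      have h2 : N i (T fun w => (φ w : ℂ)) ≤ N i (T (G z)) + N i (T (G y)) := by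
        rw [e1]
        refine (nq_add (hN i) (hGm z) ((hGm y).const_mul _) (M := 1) (M' := 1)
          (Eventually.of_forall (hG1 z)) (Eventually.of_forall fun w => ?_)).trans ?_
        · rw [norm_mul, norm_neg, norm_one, one_mul]
          exact hG1 y w
        · rw [nq_smul (hN i)]
          simp
      have h3 : (M : ℝ≥0∞) + N i (T (G y)) < N i (T (G z)) + N i (T (G y)) := hlt.trans_le h2
      exact lt_of_add_lt_add_right h3

end

end Pool.Agent.U530.SD
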