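import Pool.Agent.U530.SD.Norms
set_option autoImplicit false

/-! One union of caps, one smooth density, typical continuous densities. -/

namespace Pool.Agent.U530.SD

open MeasureTheory Set Metric Complex Filter Topology
open Pool.Agent.H789R2.FR (E sg T sg_finite sg_ae sg_inv)
open scoped ENNReal RealInnerProductSpace ContDiff

noncomputable section

variable {n : ℕ}

theorem core_caps (hn : 2 ≤ n) {x₀ : E n} {O : Set (E n)} {x : ℕ → E n} {ρ : ℕ → ℝ}
    (hP : Pts x₀ O x ρ) :
    ∃ F : ℕ → Finset (E n × ℝ), (∀ k, Fam (ball (x k) (ρ k)) (F k)) ∧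
      Decides n (T ((⋃ k, un (F k)).indicator (fun _ => (1 : ℂ)))) := by
  obtain ⟨D, hD, hDS, hD3, hD4⟩ := exists_index n
  have := hD.to_subtype
  obtain ⟨f, hf, hfm, hf1, hfin, hfout, hfD⟩ := exists_sum (n := n)
    (C := fun k => ball (x k) (ρ k)) (fun j k hjk w hw => hP.disj hjk hw)
    (A := fun k => {φ | ∃ F : Finset (E n × ℝ), Fam (ball (x k) (ρ k)) F ∧
      φ = (un F).indicator (fun _ => (1 : ℝ))})
    (by
      rintro k φ ⟨F, hF, rfl⟩
      refine ⟨measurable_const.indicator (un_meas F), fun w => ?_, fun w hw => ?_⟩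
      · by_cases h : w ∈ un F
        · rw [indicator_of_mem h]; norm_num
        · rw [indicator_of_notMem h]; norm_num
      · refine indicator_of_notMem (fun h => hw ?_) _
        obtain ⟨b, hb, hwb⟩ := mem_iUnion₂.1 h
        exact (hF.1 b hb).2.2 hwb)
    (by
      intro k
      refine ⟨∅, ⟨by simp, by simp⟩, ?_⟩
      ext w
      simp [un])
    (ι := D) (N := fun d => NR n (d : ℝ × ℝ).1 (d : ℝ × ℝ).2)
    (fun d => NR_nrm (hDS d d.2).1 _)
    (by
      intro d k K hK
      by_contra hcon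
      push Not at hcon
      refine (hDS d d.2).2 (bd_of_fam hn (NR_nrm (hDS d d.2).1 _) (hP.one k) (hP.pos k) hK
        fun F hF => ?_)
      refine le_trans (le_of_eq ?_) (hcon _ ⟨F, hF, rfl⟩)
      congr 2
      ext w
      by_cases h : w ∈ un F
      · rw [indicator_of_mem h, indicator_of_mem h]; simp
      · rw [indicator_of_notMem h, indicator_of_notMem h]; simp)
  choose F hF hfF using hf
  refine ⟨F, hF, ?_⟩
  have hsub : ∀ k w, w ∈ un (F k) → w ∈ ball (x k) (ρ k) := fun k w h => by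
    obtain ⟨b, hb, hwb⟩ := mem_iUnion₂.1 h
    exact ((hF k).1 b hb).2.2 hwb
  have hG : (⋃ k, un (F k)).indicator (fun _ => (1 : ℂ)) = fun w => ((∑' k, f k w : ℝ) : ℂ) := by
    ext w
    by_cases h : ∃ k, w ∈ ball (x k) (ρ k)
    · obtain ⟨k, hk⟩ := h
      rw [hfin k w hk, hfF k]
      by_cases h2 : w ∈ un (F k)
      · rw [indicator_of_mem (mem_iUnion.2 ⟨k, h2⟩), indicator_of_mem h2]; simp
      · rw [indicator_of_notMem h2, indicator_of_notMem]
        · simp
        · intro h3
          obtain ⟨j, hj⟩ := mem_iUnion.1 h3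
          by_cases hjk : j = k
          · subst hjk; exact h2 hj
          · exact hP.disj hjk (hsub j w hj) hk
    · push Not at h
      rw [hfout w h, indicator_of_notMem]
      · simp
      · intro h3
        obtain ⟨j, hj⟩ := mem_iUnion.1 h3
        exact h j (hsub j w hj)
  rw [hG]
  refine decides_of_top (T_le (M := 1) (Eventually.of_forall fun w => ?_)) hD3 hD4 hfD
  rw [Complex.norm_real, Real.norm_of_nonneg (hf1 w).1]
  exact (hf1 w).2

theorem core_smooth (hn : 2 ≤ n) {x₀ : E n} {O : Set (E n)} {x : ℕ → E n} {ρ : ℕ → ℝ}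
    (hP : Pts x₀ O x ρ) {η : ℝ → ℝ} (hη : Monotone η) (hη0 : ∀ t, 0 < t → 0 < η t) :
    ∃ G : E n → ℝ, Measurable G ∧ (∀ w, 0 ≤ G w ∧ G w ≤ 1) ∧ ContDiffOn ℝ ∞ G {x₀}ᶜ ∧
      Differentiable ℝ G ∧ (∀ w, w ≠ x₀ → G w ≤ η (dist w x₀)) ∧ (∀ w, w ∉ O → G w = 0) ∧
      Decides n (T fun w => (G w : ℂ)) := by
  obtain ⟨D, hD, hDS, hD3, hD4⟩ := exists_index n
  have := hD.to_subtype
  set ε : ℕ → ℝ := fun k => min 1 (min (η (3 / 4 * dist (x k) x₀)) ((3 / 4 * dist (x k) x₀) ^ 2))
    with hε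
  have hε0 : ∀ k, 0 < ε k := fun k => by
    have h1 := hP.dist_pos k
    have h2 : 0 < 3 / 4 * dist (x k) x₀ := by positivity
    exact lt_min one_pos (lt_min (hη0 _ h2) (by positivity))
  obtain ⟨f, hf, hfm, hf1, hfin, hfout, hfD⟩ := exists_sum (n := n)
    (C := fun k => ball (x k) (ρ k)) (fun j k hjk w hw => hP.disj hjk hw)
    (A := fun k => {φ | ∃ ψ, Sm (ball (x k) (ρ k)) ψ ∧ φ = fun w => ε k * ψ w})
    (by
      rintro k φ ⟨ψ, hψ, rfl⟩
      refine ⟨hψ.meas.const_mul _, fun w => ⟨mul_nonneg (hε0 k).le (hψ.2.1 w).1, ?_⟩, fun w hw => ?_⟩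
      · exact mul_le_one₀ (min_le_left _ _) (hψ.2.1 w).1 (hψ.2.1 w).2
      · show ε k * ψ w = 0
        rw [hψ.2.2 w hw, mul_zero])
    (fun k => ⟨fun _ => 0, ⟨contDiff_const, fun w => ⟨le_rfl, zero_le_one⟩, fun _ _ => rfl⟩, by
      ext w; simp⟩)
    (ι := D) (N := fun d => NR n (d : ℝ × ℝ).1 (d : ℝ × ℝ).2)
    (fun d => NR_nrm (hDS d d.2).1 _)
    (by
      intro d k K hK
      by_contra hcon
      push Not at hcon
      have hN := NR_nrm (n := n) (hDS d d.2).1 (d : ℝ × ℝ).2
      have he0 : ENNReal.ofReal (ε k) ≠ 0 := by simpa using hε0 k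
      refine (hDS d d.2).2 (bd_of_smooth hn hN (hP.one k) (hP.pos k)
        (K := K / ENNReal.ofReal (ε k)) (ENNReal.div_ne_top hK he0) fun ψ hψ => ?_)
      have h1 := hcon _ ⟨ψ, hψ, rfl⟩
      have h2 : (fun w => ((ε k * ψ w : ℝ) : ℂ)) = fun w => (ε k : ℂ) * (ψ w : ℂ) := by
        ext w
        push_cast
        rfl
      rw [h2, nq_smul hN, ← ofReal_norm, Complex.norm_real, Real.norm_of_nonneg (hε0 k).le] at h1
      rw [ENNReal.le_div_iff_mul_le (Or.inl he0) (Or.inl ENNReal.ofReal_ne_top), mul_comm]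
      exact h1)
  choose ψ hψ hfψ using hf
  have hz0 : ∀ k w, w ∉ ball (x k) (ρ k) → f k w = 0 := fun k w hw => by
    rw [hfψ k]
    show ε k * ψ k w = 0
    rw [(hψ k).2.2 w hw, mul_zero]
  have hle : ∀ k w, f k w ≤ ε k := fun k w => by
    rw [hfψ k]
    exact mul_le_of_le_one_right (hε0 k).le ((hψ k).2.1 w).2
  have hsmk : ∀ k, ContDiff ℝ ∞ (f k) := fun k => by
    rw [hfψ k]
    exact contDiff_const.mul (hψ k).1
  have hx₀ : ∀ k, x₀ ∉ ball (x k) (ρ k) := fun k h => by
    have h1 := (hP.cap_dist h).1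
    rw [dist_self] at h1
    have h2 := hP.dist_pos k
    linarith
  have hsmooth : ContDiffOn ℝ ∞ (fun w => ∑' k, f k w) {x₀}ᶜ := by
    intro w hw
    have hδ : 0 < dist w x₀ := dist_pos.2 hw
    obtain ⟨K, hK⟩ := (hP.tendsto.eventually_lt_const (half_pos hδ)).exists_forall_of_atTop
    have hloc : ∀ w' ∈ ball w (dist w x₀ / 2), ∑' k, f k w' = ∑ k ∈ Finset.range K, f k w' := by
      intro w' hw'
      have hd : dist w x₀ / 2 < dist w' x₀ := by
        have h1 := dist_triangle w w' x₀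
        rw [mem_ball, dist_comm] at hw'
        linarith
      by_cases h : ∃ k, w' ∈ ball (x k) (ρ k)
      · obtain ⟨k, hk⟩ := h
        rw [hfin k w' hk]
        have hkK : k < K := by
          by_contra hcon
          have h2 := (hP.cap_dist hk).2
          linarith [hK k (not_lt.1 hcon)]
        rw [Finset.sum_eq_single k (fun j _ hj => hz0 j w' (hP.disj (Ne.symm hj) hk))
          (fun h => absurd (Finset.mem_range.2 hkK) h)]
      · push Not at h
        rw [hfout w' h]
        exact (Finset.sum_eq_zero fun j _ => hz0 j w' (h j)).symm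
    have hsm : ContDiff ℝ ∞ fun w' => ∑ k ∈ Finset.range K, f k w' :=
      ContDiff.sum fun k _ => hsmk k
    refine ContDiffAt.contDiffWithinAt (hsm.contDiffAt.congr_of_eventuallyEq ?_)
    filter_upwards [ball_mem_nhds w (half_pos hδ)] with w' hw'
    exact hloc w' hw'
  refine ⟨fun w => ∑' k, f k w, hfm, hf1, hsmooth, ?_, ?_, ?_, ?_⟩
  · intro w
    by_cases hw : w = x₀
    · subst hw
      have hO : (fun w' => ∑' k, f k w') =O[𝓝 w] fun w' => ‖w' - w‖ ^ 2 := by
        refine Asymptotics.IsBigO.of_bound 1 (Eventually.of_forall fun w' => ?_)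
        rw [one_mul, Real.norm_of_nonneg (hf1 w').1, Real.norm_of_nonneg (by positivity),
          ← dist_eq_norm]
        by_cases h : ∃ k, w' ∈ ball (x k) (ρ k)
        · obtain ⟨k, hk⟩ := h
          rw [hfin k w' hk]
          refine (hle k w').trans ((min_le_right _ _).trans ((min_le_right _ _).trans ?_))
          have h1 := (hP.cap_dist hk).1
          have h2 := hP.dist_pos k
          gcongr
        · push Not at h
          rw [hfout w' h]
          positivity
      exact (hO.hasFDerivAt (by norm_num)).differentiableAt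
    · exact ((hsmooth w hw).contDiffAt (isOpen_compl_singleton.mem_nhds hw)).differentiableAt
        (by simp)
  · intro w hw
    by_cases h : ∃ k, w ∈ ball (x k) (ρ k)
    · obtain ⟨k, hk⟩ := h
      show ∑' k, f k w ≤ _
      rw [hfin k w hk]
      exact (hle k w).trans ((min_le_right _ _).trans ((min_le_left _ _).trans
        (hη (hP.cap_dist hk).1.le)))
    · push Not at h
      show ∑' k, f k w ≤ _
      rw [hfout w h]
      exact (hη0 _ (dist_pos.2 hw)).le
  · intro w hw
    exact hfout w fun k hk => hw (hP.sub k hk)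
  · refine decides_of_top (T_le (M := 1) (Eventually.of_forall fun w => ?_)) hD3 hD4 hfD
    rw [Complex.norm_real, Real.norm_of_nonneg (hf1 w).1]
    exact (hf1 w).2

/-! ### Densities on the sphere -/

/-- the Fourier transform of `g dσ` without the factor `2π` -/
def TS {n : ℕ} (g : sphere (0 : E n) 1 → ℂ) (ξ : E n) : ℂ :=
  ∫ x, Complex.exp (-((⟪ξ, (x : E n)⟫ : ℝ) : ℂ) * I) * g x ∂((volume : Measure (E n)).toSphere)

theorem TS_T (G : E n → ℂ) (hG : Measurable G) : TS (fun x : sphere (0 : E n) 1 => G x) = T G := by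
  ext ξ
  unfold T TS
  simp only [sg]
  have m1 : Measurable fun w : E n => Complex.exp (-((⟪ξ, w⟫ : ℝ) : ℂ) * I) * G w :=
    (ker_meas _).mul hG
  rw [integral_map measurable_subtype_coe.aemeasurable m1.aestronglyMeasurable]

/-- extension of a density to the whole space -/
theorem exists_ext {g : sphere (0 : E n) 1 → ℂ} (hg : Measurable g) {M : ℝ} (hM : 0 ≤ M)
    (h1 : ∀ x, ‖g x‖ ≤ M) :
    ∃ G : E n → ℂ, Measurable G ∧ (∀ w, ‖G w‖ ≤ M) ∧ (fun x : sphere (0 : E n) 1 => G x) = g := by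
  have hS : MeasurableSet (sphere (0 : E n) 1) := isClosed_sphere.measurableSet
  obtain ⟨g', hg', hgg⟩ := (MeasurableEmbedding.subtype_coe hS).exists_measurable_extend hg
    (fun _ => ⟨0⟩)
  have hv : ∀ x : sphere (0 : E n) 1, g' x = g x := fun x => congrFun hgg x
  refine ⟨(sphere (0 : E n) 1).indicator g', hg'.indicator hS, fun w => ?_, ?_⟩
  · by_cases h : w ∈ sphere (0 : E n) 1
    · rw [indicator_of_mem h]
      have := h1 ⟨w, h⟩
      rwa [← hv ⟨w, h⟩] at this
    · rw [indicator_of_notMem h, norm_zero]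
      exact hM
  · ext x
    rw [indicator_of_mem x.2]
    exact hv x

theorem TS_le {g : sphere (0 : E n) 1 → ℂ} {M : ℝ} (h1 : ∀ x, ‖g x‖ ≤ M) (ξ : E n) :
    ‖TS g ξ‖ ≤ M * ((volume : Measure (E n)).toSphere).real univ := by
  unfold TS
  refine norm_integral_le_of_norm_le_const (Eventually.of_forall fun x => ?_)
  rw [norm_mul, ← ofReal_neg, Complex.norm_exp_ofReal_mul_I, one_mul]
  exact h1 x

/-- typical continuous densities -/
theorem typical_cont (hn : 2 ≤ n) : ∀ᶠ g : C(sphere (0 : E n) 1, ℂ) in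
    residual C(sphere (0 : E n) 1, ℂ), Decides n (TS g) := by
  obtain ⟨D, hD, hDS, hD3, hD4⟩ := exists_index n
  have := hD.to_subtype
  have hext : ∀ g : C(sphere (0 : E n) 1, ℂ), ∃ G : E n → ℂ, Measurable G ∧
      (∀ w, ‖G w‖ ≤ ‖g‖) ∧ (fun x : sphere (0 : E n) 1 => G x) = g := fun g =>
    exists_ext g.continuous.measurable (norm_nonneg g) (fun x => g.norm_coe_le_norm x)
  have hmeas : ∀ g : C(sphere (0 : E n) 1, ℂ), AEStronglyMeasurable (TS g) volume := fun g => by
    obtain ⟨G, hG, -, he⟩ := hext g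
    rw [← he, TS_T G hG]
    exact T_meas G hG
  have hle : ∀ (g : C(sphere (0 : E n) 1, ℂ)) ξ, ‖TS g ξ‖ ≤
      ‖g‖ * ((volume : Measure (E n)).toSphere).real univ := fun g ξ =>
    TS_le (fun x => g.norm_coe_le_norm x) ξ
  have hint : ∀ (g : C(sphere (0 : E n) 1, ℂ)) (ξ : E n), Integrable
      (fun x : sphere (0 : E n) 1 => Complex.exp (-((⟪ξ, (x : E n)⟫ : ℝ) : ℂ) * I) * g x)
      ((volume : Measure (E n)).toSphere) := by
    intro g ξ
    refine Integrable.of_bound ?_ ‖g‖ (Eventually.of_forall fun x => ?_)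
    · refine Continuous.aestronglyMeasurable ?_
      have := g.continuous
      fun_prop
    · rw [norm_mul, ← ofReal_neg, Complex.norm_exp_ofReal_mul_I, one_mul]
      exact g.norm_coe_le_norm x
  have hsub : ∀ (g g' : C(sphere (0 : E n) 1, ℂ)) (ξ : E n), TS g ξ - TS g' ξ = TS (g - g') ξ := by
    intro g g' ξ
    unfold TS
    rw [← integral_sub (hint g ξ) (hint g' ξ)]
    congr 1
    ext x
    simp only [ContinuousMap.sub_apply]
    ring
  have hc : ∀ ξ, Continuous fun g : C(sphere (0 : E n) 1, ℂ) => TS g ξ := by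
    intro ξ
    refine LipschitzWith.continuous (K := (((volume : Measure (E n)).toSphere).real univ).toNNReal)
      (LipschitzWith.of_dist_le_mul fun g g' => ?_)
    rw [dist_eq_norm, dist_eq_norm, hsub, Real.coe_toNNReal _ measureReal_nonneg, mul_comm]
    exact hle _ _
  have hres := baire_all (X := C(sphere (0 : E n) 1, ℂ)) (fun g => TS g) hmeas hc (ι := D)
    (N := fun d => NR n (d : ℝ × ℝ).1 (d : ℝ × ℝ).2) (fun d => NR_nrm (hDS d d.2).1 _) ?_
  · filter_upwards [hres] with g hg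
    exact decides_of_top (hle g) hD3 hD4 hg
  · intro d M
    have hN : Nrm (NR n (d : ℝ × ℝ).1 (d : ℝ × ℝ).2) := NR_nrm (hDS d d.2).1 _
    have hnb := (hDS d d.2).2
    set N : (E n → ℂ) → ℝ≥0∞ := NR n (d : ℝ × ℝ).1 (d : ℝ × ℝ).2 with hNdef
    rw [Metric.dense_iff]
    intro g₀ r hr
    by_cases htop : N (TS g₀) = ⊤
    · refine ⟨g₀, mem_ball_self hr, ?_⟩
      show (M : ℝ≥0∞) < N (TS g₀)
      rw [htop]
      exact ENNReal.natCast_lt_top M
    · -- a smooth density with a large norm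
      obtain ⟨e, he⟩ : ∃ e : E n, ‖e‖ = 1 := by
        have : Nonempty (Fin n) := ⟨⟨0, by omega⟩⟩
        exact exists_norm_eq (E n) zero_le_one
      set K : ℝ≥0∞ := (M + N (TS g₀)) / ENNReal.ofReal (r / 2) with hK
      have hr2 : ENNReal.ofReal (r / 2) ≠ 0 := by
        have : 0 < r / 2 := half_pos hr
        simpa using this
      have hKt : K ≠ ⊤ := ENNReal.div_ne_top (by finiteness) hr2
      have hφ : ∃ φ : E n → ℝ, Sm (ball e 1) φ ∧ K < N (T fun w => (φ w : ℂ)) := by
        by_contra hcon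
        push Not at hcon
        exact hnb (bd_of_smooth hn hN he one_pos hKt fun φ hφ => hcon φ hφ)
      obtain ⟨φ, hφ, hlt⟩ := hφ
      set ψ : C(sphere (0 : E n) 1, ℂ) := ⟨fun x => (φ x : ℂ),
        Complex.continuous_ofReal.comp (hφ.1.continuous.comp continuous_subtype_val)⟩ with hψ
      have hψn : ‖ψ‖ ≤ 1 := by
        rw [ContinuousMap.norm_le _ zero_le_one]
        intro x
        show ‖(φ x : ℂ)‖ ≤ 1
        rw [Complex.norm_real, Real.norm_of_nonneg (hφ.2.1 x).1]
        exact (hφ.2.1 x).2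
      have hψT : TS ψ = T fun w => (φ w : ℂ) :=
        TS_T (fun w => (φ w : ℂ)) (Complex.measurable_ofReal.comp hφ.meas)
      refine ⟨g₀ + ((r / 2 : ℝ) : ℂ) • ψ, ?_, ?_⟩
      · rw [mem_ball, dist_eq_norm, add_sub_cancel_left, norm_smul, Complex.norm_real,
          Real.norm_of_nonneg (by positivity)]
        nlinarith
      · show (M : ℝ≥0∞) < N (TS (g₀ + ((r / 2 : ℝ) : ℂ) • ψ : C(sphere (0 : E n) 1, ℂ)))
        have e1 : TS (((r / 2 : ℝ) : ℂ) • ψ : C(sphere (0 : E n) 1, ℂ)) =
            ((r / 2 : ℝ) : ℂ) • TS ψ := by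
          ext ξ
          unfold TS
          rw [Pi.smul_apply, smul_eq_mul, ← integral_const_mul]
          congr 1
          ext x
          simp only [ContinuousMap.smul_apply, smul_eq_mul]
          ring
        have e2 : TS (((r / 2 : ℝ) : ℂ) • ψ : C(sphere (0 : E n) 1, ℂ)) =
            TS (g₀ + ((r / 2 : ℝ) : ℂ) • ψ : C(sphere (0 : E n) 1, ℂ)) + (-1 : ℂ) • TS g₀ := by
          ext ξ
          rw [Pi.add_apply, Pi.smul_apply, smul_eq_mul, neg_one_mul, ← sub_eq_add_neg, hsub]
          congr 2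
          ext x
          simp
        have h2 : ENNReal.ofReal (r / 2) * N (T fun w => (φ w : ℂ)) ≤
            N (TS (g₀ + ((r / 2 : ℝ) : ℂ) • ψ : C(sphere (0 : E n) 1, ℂ))) + N (TS g₀) := by
          rw [← hψT]
          have h3 : N (((r / 2 : ℝ) : ℂ) • TS ψ) = ENNReal.ofReal (r / 2) * N (TS ψ) := by
            rw [hN.smul, ← ofReal_norm, Complex.norm_real, Real.norm_of_nonneg (by positivity)]
          rw [← h3, ← e1, e2]
          refine (hN.add _ _ (hmeas _) ((hmeas _).const_smul _)).trans ?_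
          rw [hN.smul]
          simp
        have h4 : (M : ℝ≥0∞) + N (TS g₀) < ENNReal.ofReal (r / 2) * N (T fun w => (φ w : ℂ)) := by
          have h5 : K * ENNReal.ofReal (r / 2) = M + N (TS g₀) := by
            rw [hK]
            exact ENNReal.div_mul_cancel hr2 ENNReal.ofReal_ne_top
          rw [← h5, mul_comm K]
          exact (ENNReal.mul_lt_mul_iff_right hr2 ENNReal.ofReal_ne_top).2 hlt
        exact lt_of_add_lt_add_right (h4.trans_le h2)

end

end Pool.Agent.U530.SD
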