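import Pool.Agent.U530.SD.Lim
set_option autoImplicit false

/-! Reduction to densities in one small cap. -/

namespace Pool.Agent.U530.SD

open MeasureTheory Set Metric Complex Filter Topology
open Pool.Agent.H789R2.FR (E sg T sg_finite sg_ae sg_inv)
open scoped ENNReal RealInnerProductSpace

noncomputable section

variable {n : ℕ} {N : (E n → ℂ) → ℝ≥0∞}

theorem T_comp_iso (L : E n ≃ₗᵢ[ℝ] E n) (g : E n → ℂ) (x : E n) :
    T (fun w => g (L w)) x = T g (L x) := by
  unfold T
  have h := (sg_inv L).integral_comp (L.toHomeomorph.measurableEmbedding)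
    (fun w => Complex.exp (-((⟪L x, w⟫ : ℝ) : ℂ) * I) * g w)
  rw [← h]
  congr 1
  ext w
  rw [LinearIsometryEquiv.inner_map_map]

theorem nq_iso (hN : Nrm N) (L : E n ≃ₗᵢ[ℝ] E n) {g : E n → ℂ} (hg : Measurable g) :
    N (T fun w => g (L w)) = N (T g) := by
  have h1 : T (fun w => g (L w)) = T g ∘ L := funext fun x => T_comp_iso L g x
  rw [h1]
  exact hN.iso L _ (T_meas g hg)

theorem exists_iso {x y : E n} (hx : ‖x‖ = 1) (hy : ‖y‖ = 1) : ∃ L : E n ≃ₗᵢ[ℝ] E n, L x = y := by
  refine ⟨(ℝ ∙ (x - y))ᗮ.reflection, ?_⟩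
  exact Submodule.reflection_sub (by rw [hx, hy])

/-- The uniform bound over all densities. -/
def Bd (N : (E n → ℂ) → ℝ≥0∞) : Prop := ∃ C : ℝ≥0∞, C ≠ ∞ ∧ ∀ g : E n → ℂ, Measurable g →
  (∀ w, ‖g w‖ ≤ 1) → N (T g) ≤ C

theorem bd_of_cap (hN : Nrm N) {x : E n} (hx : ‖x‖ = 1) {r : ℝ} (hr : 0 < r) {K : ℝ≥0∞}
    (hK : K ≠ ∞)
    (hB : ∀ A : Set (E n), MeasurableSet A → A ⊆ ball x r →
      N (T (A.indicator (fun _ => (1 : ℂ)))) ≤ K) : Bd N := by
  have hcomp : IsCompact (sphere (0 : E n) 1) := isCompact_sphere _ _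
  obtain ⟨t, ht, hcov⟩ := hcomp.elim_nhds_subcover (fun y => ball y r) (fun y _ => ball_mem_nhds y hr)
  have hone : ∀ y : E n, ‖y‖ = 1 → ∀ g : E n → ℂ, Measurable g → (∀ w, ‖g w‖ ≤ 1) →
      (∀ w, w ∉ ball y r → g w = 0) → N (T g) ≤ 4 * K := by
    intro y hy g hg hg1 hg0
    obtain ⟨L, hL⟩ := exists_iso hx hy
    rw [← nq_iso hN L hg]
    refine nq_complex hN hB (hg.comp L.continuous.measurable) (fun w => hg1 _) (fun w hw => hg0 _ ?_)
    rw [mem_ball] at hw ⊢
    rwa [← hL, L.dist_map]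
  have hmany : ∀ s : Finset (E n), (∀ y ∈ s, ‖y‖ = 1) → ∀ g : E n → ℂ, Measurable g →
      (∀ w, ‖g w‖ ≤ 1) → (∀ w, w ∉ ⋃ y ∈ s, ball y r → g w = 0) →
      N (T g) ≤ (s.card : ℝ≥0∞) * (4 * K) := by
    classical
    intro s
    induction s using Finset.induction_on with
    | empty =>
      intro _ g hg hg1 hg0
      have : g = fun _ => (0 : ℂ) * 0 := by
        ext w
        rw [hg0 w (by simp)]
        simp
      rw [this, nq_smul hN]
      simp
    | insert a s ha ih =>
      intro hs g hg hg1 hg0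
      have e1 : g = fun w => (ball a r).indicator g w + ((ball a r)ᶜ).indicator g w := by
        ext w
        by_cases h : w ∈ ball a r
        · rw [indicator_of_mem h, indicator_of_notMem (by simpa using h), add_zero]
        · rw [indicator_of_notMem h, indicator_of_mem (by simpa using h), zero_add]
      have hle : ∀ (A : Set (E n)) w, ‖A.indicator g w‖ ≤ 1 := fun A w => by
        by_cases h : w ∈ A
        · rw [indicator_of_mem h]; exact hg1 w
        · rw [indicator_of_notMem h]; simp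
      rw [e1]
      refine (nq_add hN (hg.indicator measurableSet_ball) (hg.indicator measurableSet_ball.compl)
        (Eventually.of_forall (hle _)) (Eventually.of_forall (hle _))).trans ?_
      rw [Finset.card_insert_of_notMem ha]
      have h1 := hone a (hs a (Finset.mem_insert_self _ _)) _ (hg.indicator measurableSet_ball)
        (hle _) (fun w hw => indicator_of_notMem hw _)
      have h2 := ih (fun y hy => hs y (Finset.mem_insert_of_mem hy)) _
        (hg.indicator measurableSet_ball.compl) (hle _) (fun w hw => by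
          by_cases h : w ∈ ball a r
          · exact indicator_of_notMem (by simpa using h) _
          · rw [indicator_of_mem (by simpa using h)]
            refine hg0 w ?_
            rw [Finset.set_biUnion_insert]
            rintro (h3 | h3)
            · exact h h3
            · exact hw h3)
      refine (add_le_add h1 h2).trans (le_of_eq ?_)
      push_cast
      ring
  refine ⟨(t.card : ℝ≥0∞) * (4 * K), by finiteness, fun g hg hg1 => ?_⟩
  have h1 : ∀ᵐ w ∂(sg n), g w = (⋃ y ∈ t, ball y r).indicator g w := by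
    filter_upwards [sg_ae n] with w hw
    rw [indicator_of_mem]
    exact hcov (by simpa using hw)
  rw [nq_congr N h1]
  have hopen : MeasurableSet (⋃ y ∈ t, ball y r) :=
    Finset.measurableSet_biUnion _ fun y _ => measurableSet_ball
  refine hmany t (fun y hy => by simpa using ht y hy) _ (hg.indicator hopen) (fun w => ?_)
    (fun w hw => indicator_of_notMem hw _)
  by_cases h : w ∈ ⋃ y ∈ t, ball y r
  · rw [indicator_of_mem h]; exact hg1 w
  · rw [indicator_of_notMem h]; simp

/-- finite unions of disjoint closed balls centred on the sphere -/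
def Fam (O : Set (E n)) (F : Finset (E n × ℝ)) : Prop :=
  (∀ b ∈ F, ‖b.1‖ = 1 ∧ 0 < b.2 ∧ closedBall b.1 b.2 ⊆ O) ∧
  (F : Set (E n × ℝ)).PairwiseDisjoint (fun b => closedBall b.1 b.2)

/-- the union of the balls of the family -/
def un (F : Finset (E n × ℝ)) : Set (E n) := ⋃ b ∈ F, closedBall b.1 b.2

theorem un_meas (F : Finset (E n × ℝ)) : MeasurableSet (un F) :=
  Finset.measurableSet_biUnion _ fun _ _ => isClosed_closedBall.measurableSet

/-- Vitali: open sets are exhausted by finite unions of disjoint balls centred on the sphere. -/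
theorem exists_fam (hn : 2 ≤ n) {O : Set (E n)} (hO : IsOpen O) {ε : ℝ≥0∞} (hε : 0 < ε) :
    ∃ F : Finset (E n × ℝ), Fam O F ∧ sg n (O \ un F) ≤ ε := by
  have hfin := sg_finite n
  obtain ⟨C, hC, hup⟩ := Pool.Agent.H789R2.FR.cap_upper n hn
  obtain ⟨c, hc, hlow⟩ := Pool.Agent.H789R2.FR.cap_lower n hn
  set t : Set (E n × ℝ) := {b | ‖b.1‖ = 1 ∧ 0 < b.2 ∧ b.2 ≤ 1 ∧ closedBall b.1 b.2 ⊆ O} with ht
  obtain ⟨u, hut, huc, hud, hu0⟩ := Vitali.exists_disjoint_covering_ae (μ := sg n)
    (O ∩ sphere (0 : E n) 1) t (ENNReal.ofReal (C * 4 ^ (n - 1) / c)).toNNReal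
    (fun b => b.2) (fun b => b.1) (fun b => closedBall b.1 b.2) (fun b _ => subset_rfl)
    (by
      rintro b ⟨hb1, hb2, hb3, hb4⟩
      rw [ENNReal.coe_toNNReal ENNReal.ofReal_ne_top]
      have h1 : sg n (closedBall b.1 (3 * b.2)) ≤ ENNReal.ofReal (C * (4 * b.2) ^ (n - 1)) := by
        refine (measure_mono (show closedBall b.1 (3 * b.2) ⊆ {w | ‖b.1 - w‖ < 4 * b.2} from
          fun w hw => ?_)).trans ?_
        · rw [mem_closedBall, dist_comm, dist_eq_norm] at hw
          show ‖b.1 - w‖ < 4 * b.2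
          linarith
        · rw [← ENNReal.ofReal_toReal (measure_ne_top (sg n) {w | ‖b.1 - w‖ < 4 * b.2})]
          exact ENNReal.ofReal_le_ofReal (hup _ (by linarith) _ hb1)
      have h2 : ENNReal.ofReal (c * b.2 ^ (n - 1)) ≤ sg n (closedBall b.1 b.2) := by
        refine le_trans ?_ (measure_mono (show {w | ‖b.1 - w‖ < b.2} ⊆ closedBall b.1 b.2 from
          fun w hw => ?_))
        · rw [← ENNReal.ofReal_toReal (measure_ne_top (sg n) {w | ‖b.1 - w‖ < b.2})]
          exact ENNReal.ofReal_le_ofReal (hlow _ hb2 hb3 _ hb1)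
        · rw [mem_closedBall, dist_comm, dist_eq_norm]
          exact (show ‖b.1 - w‖ < b.2 from hw).le
      refine h1.trans (le_trans (le_of_eq ?_) (mul_le_mul_right h2 _))
      rw [← ENNReal.ofReal_mul (by positivity)]
      congr 1
      rw [mul_pow]
      field_simp)
    (by
      rintro b ⟨-, hb2, -⟩
      exact (nonempty_ball.2 hb2).mono (ball_subset_interior_closedBall))
    (fun b _ => isClosed_closedBall)
    (by
      rintro x ⟨hx1, hx2⟩ ε hε
      obtain ⟨ρ, hρ, hρO⟩ := Metric.isOpen_iff.1 hO x hx1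
      refine ⟨(x, min (ρ / 2) (min ε 1)), ⟨by simpa using hx2, by positivity,
        (min_le_right _ _).trans (min_le_right _ _), ?_⟩,
        (min_le_right _ _).trans (min_le_left _ _), rfl⟩
      refine (closedBall_subset_ball ?_).trans hρO
      exact (min_le_left _ _).trans_lt (by linarith))
  -- exhaust by finite subfamilies
  have hO0 : sg n (O \ ⋃ b ∈ u, closedBall b.1 b.2) = 0 := by
    have h1 : sg n ((sphere (0 : E n) 1)ᶜ) = 0 := by
      have := sg_ae n
      rw [ae_iff] at this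
      refine measure_mono_null (fun w hw => ?_) this
      simpa using hw
    refine measure_mono_null (fun w hw => ?_) (measure_union_null hu0 h1)
    by_cases h : w ∈ sphere (0 : E n) 1
    · exact Or.inl ⟨⟨hw.1, h⟩, hw.2⟩
    · exact Or.inr h
  have huc' : Countable u := huc.to_subtype
  -- directed family of finite subsets
  have hlim : Tendsto (fun F : Finset u => sg n (O \ ⋃ b ∈ F, closedBall (b : E n × ℝ).1 (b : E n × ℝ).2))
      atTop (𝓝 (sg n (⋂ F : Finset u, O \ ⋃ b ∈ F, closedBall (b : E n × ℝ).1 (b : E n × ℝ).2))) := by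
    refine tendsto_measure_iInter_atTop (fun F => ?_) (fun F F' h => ?_) ⟨∅, measure_ne_top _ _⟩
    · exact (hO.measurableSet.diff (Finset.measurableSet_biUnion _ fun _ _ =>
        isClosed_closedBall.measurableSet)).nullMeasurableSet
    · exact sdiff_subset_sdiff_right (biUnion_subset_biUnion_left h)
  have hz : sg n (⋂ F : Finset u, O \ ⋃ b ∈ F, closedBall (b : E n × ℝ).1 (b : E n × ℝ).2) = 0 := by
    refine measure_mono_null (fun w hw => ?_) hO0
    rw [mem_iInter] at hw
    refine ⟨(hw ∅).1, fun h => ?_⟩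
    simp only [mem_iUnion] at h
    obtain ⟨b, hb, hwb⟩ := h
    exact (hw {⟨b, hb⟩}).2 (by simpa using hwb)
  rw [hz] at hlim
  obtain ⟨F, hF⟩ := (hlim.eventually_le_const hε).exists
  classical
  refine ⟨F.image Subtype.val, ⟨fun b hb => ?_, ?_⟩, ?_⟩
  · obtain ⟨b', -, rfl⟩ := Finset.mem_image.1 hb
    obtain ⟨h1, h2, -, h4⟩ := hut b'.2
    exact ⟨h1, h2, h4⟩
  · refine hud.subset ?_
    intro b hb
    obtain ⟨b', -, rfl⟩ := Finset.mem_image.1 (Finset.mem_coe.1 hb)
    exact b'.2
  · refine le_trans (measure_mono (fun w hw => ?_)) hF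
    refine ⟨hw.1, fun h => hw.2 ?_⟩
    simp only [mem_iUnion] at h
    obtain ⟨b, hb, hwb⟩ := h
    exact mem_iUnion₂.2 ⟨b, Finset.mem_image_of_mem _ hb, hwb⟩

theorem nq_of_fam (hn : 2 ≤ n) (hN : Nrm N) {O : Set (E n)} (hO : IsOpen O) {K : ℝ≥0∞}
    (hK : ∀ F : Finset (E n × ℝ), Fam O F → N (T ((un F).indicator (fun _ => (1 : ℂ)))) ≤ K)
    {A : Set (E n)} (hA : MeasurableSet A) (hAO : A ⊆ O) :
    N (T (A.indicator (fun _ => (1 : ℂ)))) ≤ K := by
  have hfin := sg_finite n
  have h1 : ∀ j : ℕ, ∃ F : Finset (E n × ℝ), Fam O F ∧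
      (sg n).real (symmDiff (un F) A) ≤ 2 * (1 / ((j : ℝ) + 1)) := by
    intro j
    have hε : (0 : ℝ) < 1 / ((j : ℝ) + 1) := by positivity
    obtain ⟨O', hAO', hO', hm⟩ := A.exists_isOpen_lt_of_lt (μ := sg n)
      (sg n A + ENNReal.ofReal (1 / ((j : ℝ) + 1)))
      (ENNReal.lt_add_right (measure_ne_top _ _) (by simpa using hε))
    obtain ⟨F, hF, hF2⟩ := exists_fam hn (hO'.inter hO)
      (ε := ENNReal.ofReal (1 / ((j : ℝ) + 1))) (by simpa using hε)
    refine ⟨F, ⟨fun b hb => ⟨(hF.1 b hb).1, (hF.1 b hb).2.1,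
      (hF.1 b hb).2.2.trans inter_subset_right⟩, hF.2⟩, ?_⟩
    have hsub : symmDiff (un F) A ⊆ (O' \ A) ∪ ((O' ∩ O) \ un F) := by
      intro w hw
      rcases hw with ⟨h2, h3⟩ | ⟨h2, h3⟩
      · refine Or.inl ⟨?_, h3⟩
        obtain ⟨b, hb, hwb⟩ := mem_iUnion₂.1 h2
        exact ((hF.1 b hb).2.2 hwb).1
      · exact Or.inr ⟨⟨hAO' h2, hAO h2⟩, h3⟩
    have h4 : sg n (O' \ A) ≤ ENNReal.ofReal (1 / ((j : ℝ) + 1)) := by
      rw [measure_sdiff hAO' hA.nullMeasurableSet (measure_ne_top _ _)]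
      rw [tsub_le_iff_left]
      exact hm.le
    have h5 : sg n (symmDiff (un F) A) ≤ ENNReal.ofReal (2 * (1 / ((j : ℝ) + 1))) := by
      refine ((measure_mono hsub).trans (measure_union_le _ _)).trans
        ((add_le_add h4 hF2).trans (le_of_eq ?_))
      rw [← ENNReal.ofReal_add hε.le hε.le]
      congr 1
      ring
    exact ENNReal.toReal_le_of_le_ofReal (by positivity) h5
  choose F hF hF2 using h1
  refine nq_lim hN (g := fun j => (un (F j)).indicator (fun _ => (1 : ℂ)))
    (fun j => one_meas (un_meas _)) (fun x => ?_) (fun j => hK _ (hF j))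
  rw [tendsto_iff_norm_sub_tendsto_zero]
  refine squeeze_zero (fun _ => norm_nonneg _) (fun j => (T_diff (un_meas _) hA x).trans (hF2 j)) ?_
  have := (tendsto_one_div_add_atTop_nhds_zero_nat (𝕜 := ℝ)).const_mul 2
  simpa using this

/-- If the bound holds for finite unions of disjoint closed balls in one small cap then it holds
for all densities. -/
theorem bd_of_fam (hn : 2 ≤ n) (hN : Nrm N) {x : E n} (hx : ‖x‖ = 1) {r : ℝ} (hr : 0 < r)
    {K : ℝ≥0∞} (hK' : K ≠ ∞)
    (hK : ∀ F : Finset (E n × ℝ), Fam (ball x r) F →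
      N (T ((un F).indicator (fun _ => (1 : ℂ)))) ≤ K) : Bd N :=
  bd_of_cap hN hx hr hK' fun _ hA hAO => nq_of_fam hn hN isOpen_ball hK hA hAO

end

end Pool.Agent.U530.SD
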