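import Pool.Agent.H789R2.FR.Caps
import Pool.Agent.H438R2.PD.Core
set_option autoImplicit false

/-! The `L^q` norm of the Fourier transform of densities on the sphere: elementary properties. -/

namespace Pool.Agent.U530.SD

open MeasureTheory Set Metric Complex Filter Topology
open Pool.Agent.H789R2.FR (E sg T sg_finite sg_ae sg_inv)
open scoped ENNReal RealInnerProductSpace

noncomputable section

variable {n : ℕ}

/-- rotation invariant norms on functions of `ℝ^n` with the property of Fatou -/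
structure Nrm (N : (E n → ℂ) → ℝ≥0∞) : Prop where
  add : ∀ F H : E n → ℂ, AEStronglyMeasurable F volume → AEStronglyMeasurable H volume →
    N (F + H) ≤ N F + N H
  smul : ∀ (c : ℂ) (F : E n → ℂ), N (c • F) = ‖c‖ₑ * N F
  fatou : ∀ (F : ℕ → E n → ℂ) (F' : E n → ℂ) (K : ℝ≥0∞), (∀ j, AEStronglyMeasurable (F j) volume) →
    (∀ x, Tendsto (fun j => F j x) atTop (𝓝 (F' x))) → (∀ j, N (F j) ≤ K) → N F' ≤ K
  iso : ∀ (L : E n ≃ₗᵢ[ℝ] E n) (F : E n → ℂ), AEStronglyMeasurable F volume → N (F ∘ L) = N F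

variable {N : (E n → ℂ) → ℝ≥0∞}

theorem T_meas (g : E n → ℂ) (hg : Measurable g) : AEStronglyMeasurable (T g) volume :=
  (Pool.Agent.H438R2.PD.T_meas' g hg).aestronglyMeasurable

theorem norm_ker (x w : E n) : ‖Complex.exp (-((⟪x, w⟫ : ℝ) : ℂ) * I)‖ = 1 := by
  rw [← ofReal_neg, Complex.norm_exp_ofReal_mul_I]

theorem ker_meas (x : E n) : Measurable fun w : E n => Complex.exp (-((⟪x, w⟫ : ℝ) : ℂ) * I) := by
  have h2 : Measurable fun w : E n => (⟪x, w⟫ : ℝ) := (by fun_prop : Continuous _).measurable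
  exact Complex.measurable_exp.comp ((Complex.measurable_ofReal.comp h2).neg.mul_const I)

theorem T_int {g : E n → ℂ} (hg : Measurable g) {M : ℝ} (hM : ∀ᵐ w ∂(sg n), ‖g w‖ ≤ M) (x : E n) :
    Integrable (fun w => Complex.exp (-((⟪x, w⟫ : ℝ) : ℂ) * I) * g w) (sg n) := by
  have := sg_finite n
  refine Integrable.of_bound ((ker_meas x).mul hg).aestronglyMeasurable M ?_
  filter_upwards [hM] with w hw
  rw [norm_mul, norm_ker, one_mul]
  exact hw

theorem T_add {g h : E n → ℂ} (hg : Measurable g) (hh : Measurable h) {M M' : ℝ}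
    (hM : ∀ᵐ w ∂(sg n), ‖g w‖ ≤ M) (hM' : ∀ᵐ w ∂(sg n), ‖h w‖ ≤ M') (x : E n) :
    T (fun w => g w + h w) x = T g x + T h x := by
  unfold T
  rw [← integral_add (T_int hg hM x) (T_int hh hM' x)]
  congr 1
  ext w
  ring

theorem T_smul (c : ℂ) (g : E n → ℂ) (x : E n) : T (fun w => c * g w) x = c * T g x := by
  unfold T
  rw [← integral_const_mul]
  congr 1
  ext w
  ring

theorem T_le {g : E n → ℂ} {M : ℝ} (hM : ∀ᵐ w ∂(sg n), ‖g w‖ ≤ M) (x : E n) :
    ‖T g x‖ ≤ M * (sg n).real univ := by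
  have := sg_finite n
  unfold T
  refine norm_integral_le_of_norm_le_const ?_
  filter_upwards [hM] with w hw
  rw [norm_mul, norm_ker, one_mul]
  exact hw

theorem nq_add (hN : Nrm N) {g h : E n → ℂ} (hg : Measurable g) (hh : Measurable h) {M M' : ℝ}
    (hM : ∀ᵐ w ∂(sg n), ‖g w‖ ≤ M) (hM' : ∀ᵐ w ∂(sg n), ‖h w‖ ≤ M') :
    N (T fun w => g w + h w) ≤ N (T g) + N (T h) := by
  have h1 : T (fun w => g w + h w) = T g + T h := funext fun x => T_add hg hh hM hM' x
  rw [h1]
  exact hN.add _ _ (T_meas g hg) (T_meas h hh)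

theorem nq_smul (hN : Nrm N) (c : ℂ) (g : E n → ℂ) : N (T fun w => c * g w) = ‖c‖ₑ * N (T g) := by
  have h1 : T (fun w => c * g w) = c • T g := funext fun x => T_smul c g x
  rw [h1, hN.smul]

theorem nq_congr (N : (E n → ℂ) → ℝ≥0∞) {g g' : E n → ℂ} (h : ∀ᵐ z ∂(sg n), g z = g' z) :
    N (T g) = N (T g') := by
  have h1 : T g = T g' := funext fun x => Pool.Agent.H438R2.PD.T_congr g g' h x
  rw [h1]

/-- Fatou: pointwise convergence of the transforms -/
theorem nq_lim (hN : Nrm N) {K : ℝ≥0∞} {g : ℕ → E n → ℂ} {g' : E n → ℂ} (hg : ∀ j, Measurable (g j))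
    (hT : ∀ x, Tendsto (fun j => T (g j) x) atTop (𝓝 (T g' x))) (hK : ∀ j, N (T (g j)) ≤ K) :
    N (T g') ≤ K := hN.fatou _ _ _ (fun j => T_meas (g j) (hg j)) hT hK

/-- dominated convergence for the transforms -/
theorem T_tendsto {g : ℕ → E n → ℂ} {g' : E n → ℂ} (hg : ∀ j, Measurable (g j)) {M : ℝ}
    (hM : ∀ j, ∀ᵐ w ∂(sg n), ‖g j w‖ ≤ M)
    (h : ∀ᵐ w ∂(sg n), Tendsto (fun j => g j w) atTop (𝓝 (g' w))) (x : E n) :
    Tendsto (fun j => T (g j) x) atTop (𝓝 (T g' x)) := by
  have := sg_finite n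
  unfold T
  refine tendsto_integral_of_dominated_convergence (fun _ => M)
    (fun j => ((ker_meas x).mul (hg j)).aestronglyMeasurable) (integrable_const M) (fun j => ?_) ?_
  · filter_upwards [hM j] with w hw
    rw [norm_mul, norm_ker, one_mul]
    exact hw
  · filter_upwards [h] with w hw
    exact hw.const_mul _

theorem one_meas {A : Set (E n)} (hA : MeasurableSet A) :
    Measurable (A.indicator (fun _ => (1 : ℂ))) := measurable_const.indicator hA

theorem one_le (A : Set (E n)) (w : E n) : ‖A.indicator (fun _ => (1 : ℂ)) w‖ ≤ 1 := by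
  by_cases h : w ∈ A
  · rw [indicator_of_mem h]; simp
  · rw [indicator_of_notMem h]; simp

/-- `L¹` convergence of the densities implies convergence of the transforms. -/
theorem T_diff {A B : Set (E n)} (hA : MeasurableSet A) (hB : MeasurableSet B) (x : E n) :
    ‖T (A.indicator (fun _ => (1 : ℂ))) x - T (B.indicator (fun _ => (1 : ℂ))) x‖ ≤
      (sg n).real (symmDiff A B) := by
  have := sg_finite n
  unfold T
  rw [← integral_sub (T_int (one_meas hA) (Eventually.of_forall (one_le A)) x)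
    (T_int (one_meas hB) (Eventually.of_forall (one_le B)) x)]
  calc _ ≤ ∫ w, ‖Complex.exp (-((⟪x, w⟫ : ℝ) : ℂ) * I) * A.indicator (fun _ => (1 : ℂ)) w -
        Complex.exp (-((⟪x, w⟫ : ℝ) : ℂ) * I) * B.indicator (fun _ => (1 : ℂ)) w‖ ∂(sg n) :=
        norm_integral_le_integral_norm _
    _ = ∫ w, (symmDiff A B).indicator (fun _ => (1 : ℝ)) w ∂(sg n) := by
        congr 1
        ext w
        rw [← mul_sub, norm_mul, norm_ker, one_mul]
        by_cases h1 : w ∈ A <;> by_cases h2 : w ∈ B <;>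
          simp [h1, h2, indicator, Set.mem_symmDiff]
    _ = (sg n).real (symmDiff A B) := by
        rw [integral_indicator_const _ (hA.symmDiff hB), smul_eq_mul, mul_one]

/-- functions with values in `[0, 1]` are averages of indicator functions -/
theorem nq_unit (hN : Nrm N) {B : Set (E n)} {K : ℝ≥0∞}
    (hB : ∀ A : Set (E n), MeasurableSet A → A ⊆ B → N (T (A.indicator (fun _ => (1 : ℂ)))) ≤ K)
    {h : E n → ℝ} (hh : Measurable h) (h0 : ∀ w, 0 ≤ h w) (h1 : ∀ w, h w ≤ 1)
    (hs : ∀ w, w ∉ B → h w = 0) : N (T fun w => (h w : ℂ)) ≤ K := by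
  set A : ℕ → ℕ → Set (E n) := fun m j => {w | (j : ℝ) / (m + 1) < h w} with hA
  have hAm : ∀ m j, MeasurableSet (A m j) := fun m j => measurableSet_lt measurable_const hh
  have hAB : ∀ m j, A m j ⊆ B := fun m j w hw => by
    by_contra hcon
    have h2 : (j : ℝ) / (m + 1) < h w := hw
    rw [hs w hcon] at h2
    have : (0 : ℝ) ≤ (j : ℝ) / (m + 1) := by positivity
    linarith
  set S : ℕ → ℕ → E n → ℂ := fun m k w =>
    ∑ j ∈ Finset.range k, (A m j).indicator (fun _ => (1 : ℂ)) w with hS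
  have hSm : ∀ m k, Measurable (S m k) := fun m k =>
    Finset.measurable_fun_sum _ fun j _ => one_meas (hAm m j)
  have hSb : ∀ m k w, ‖S m k w‖ ≤ k := fun m k w => by
    refine (norm_sum_le _ _).trans ?_
    calc ∑ j ∈ Finset.range k, ‖(A m j).indicator (fun _ => (1 : ℂ)) w‖
        ≤ ∑ j ∈ Finset.range k, (1 : ℝ) := Finset.sum_le_sum fun j _ => one_le _ w
      _ = k := by simp
  have hSn : ∀ m k, N (T (S m k)) ≤ k * K := by
    intro m k
    induction k with
    | zero =>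
      have : S m 0 = fun _ => (0 : ℂ) * 0 := by ext w; simp [hS]
      rw [this, nq_smul hN]
      simp
    | succ k ih =>
      have e1 : S m (k + 1) = fun w => S m k w + (A m k).indicator (fun _ => (1 : ℂ)) w := by
        ext w
        simp only [hS]
        rw [Finset.sum_range_succ]
      rw [e1]
      refine (nq_add hN (hSm m k) (one_meas (hAm m k)) (Eventually.of_forall (hSb m k))
        (Eventually.of_forall (one_le _))).trans ?_
      refine (add_le_add ih (hB _ (hAm m k) (hAB m k))).trans (le_of_eq ?_)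
      push_cast
      ring
  have hval : ∀ m w, S m (m + 1) w = ((⌈(m + 1 : ℕ) * h w⌉₊ : ℝ) : ℂ) := by
    intro m w
    have hm : (0 : ℝ) < ((m + 1 : ℕ) : ℝ) := by positivity
    have e1 : ∀ j : ℕ, w ∈ A m j ↔ j < ⌈(m + 1 : ℕ) * h w⌉₊ := fun j => by
      rw [Nat.lt_ceil]
      show (j : ℝ) / (m + 1) < h w ↔ _
      rw [div_lt_iff₀ (by positivity)]
      push_cast
      rw [mul_comm]
    have e2 : S m (m + 1) w = ∑ j ∈ Finset.range (m + 1),
        if j < ⌈(m + 1 : ℕ) * h w⌉₊ then (1 : ℂ) else 0 := by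
      simp only [hS]
      refine Finset.sum_congr rfl fun j _ => ?_
      rw [indicator_apply]
      simp only [e1]
    rw [e2, ← Finset.sum_filter, Finset.sum_const, nsmul_eq_mul, mul_one]
    have e3 : ⌈(m + 1 : ℕ) * h w⌉₊ ≤ m + 1 := by
      rw [Nat.ceil_le]
      calc ((m + 1 : ℕ) : ℝ) * h w ≤ ((m + 1 : ℕ) : ℝ) * 1 :=
            mul_le_mul_of_nonneg_left (h1 w) hm.le
        _ = _ := mul_one _
    have e4 : (Finset.range (m + 1)).filter (fun j => j < ⌈(m + 1 : ℕ) * h w⌉₊) =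
        Finset.range ⌈(m + 1 : ℕ) * h w⌉₊ := by
      ext j
      simp only [Finset.mem_filter, Finset.mem_range]
      omega
    rw [e4, Finset.card_range]
    push_cast
    rfl
  refine nq_lim hN (g := fun m w => ((1 / ((m + 1 : ℕ) : ℝ) : ℝ) : ℂ) * S m (m + 1) w)
    (fun m => (hSm m _).const_mul _) (T_tendsto (M := 1) (fun m => (hSm m _).const_mul _) ?_ ?_) ?_
  · intro m
    refine Eventually.of_forall fun w => ?_
    rw [norm_mul, Complex.norm_real, Real.norm_of_nonneg (by positivity), one_div,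
      inv_mul_le_iff₀ (by positivity), mul_one]
    exact hSb m _ w
  · refine Eventually.of_forall fun w => ?_
    have e1 : (fun m : ℕ => ((1 / ((m + 1 : ℕ) : ℝ) : ℝ) : ℂ) * S m (m + 1) w) =
        fun m : ℕ => (((⌈((m + 1 : ℕ) : ℝ) * h w⌉₊ : ℝ) / ((m + 1 : ℕ) : ℝ) : ℝ) : ℂ) := by
      ext m
      rw [hval]
      push_cast
      ring
    rw [e1]
    refine (Complex.continuous_ofReal.tendsto _).comp ?_
    have h2 : Tendsto (fun x : ℝ => (⌈x * h w⌉₊ : ℝ) / x) atTop (𝓝 (h w)) := by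
      have := tendsto_nat_ceil_mul_div_atTop (h0 w)
      simpa [mul_comm] using this
    exact h2.comp (tendsto_natCast_atTop_atTop.comp (tendsto_add_atTop_nat 1))
  · intro m
    rw [nq_smul hN]
    have h3 : ‖((1 / ((m + 1 : ℕ) : ℝ) : ℝ) : ℂ)‖ₑ = ((m + 1 : ℕ) : ℝ≥0∞)⁻¹ := by
      rw [← ofReal_norm, Complex.norm_real, Real.norm_of_nonneg (by positivity), one_div,
        ENNReal.ofReal_inv_of_pos (by positivity), ENNReal.ofReal_natCast]
    rw [h3]
    calc ((m + 1 : ℕ) : ℝ≥0∞)⁻¹ * N (T (S m (m + 1)))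
        ≤ ((m + 1 : ℕ) : ℝ≥0∞)⁻¹ * (((m + 1 : ℕ) : ℝ≥0∞) * K) := by
          gcongr
          exact hSn m (m + 1)
      _ = K := by
          rw [← mul_assoc, ENNReal.inv_mul_cancel (by simp) (by simp), one_mul]

/-- complex densities supported in `B` -/
theorem nq_complex (hN : Nrm N) {B : Set (E n)} {K : ℝ≥0∞}
    (hB : ∀ A : Set (E n), MeasurableSet A → A ⊆ B → N (T (A.indicator (fun _ => (1 : ℂ)))) ≤ K)
    {g : E n → ℂ} (hg : Measurable g) (h1 : ∀ w, ‖g w‖ ≤ 1)
    (hs : ∀ w, w ∉ B → g w = 0) : N (T g) ≤ 4 * K := by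
  have hre : ∀ w, |(g w).re| ≤ 1 := fun w => (Complex.abs_re_le_norm _).trans (h1 w)
  have him : ∀ w, |(g w).im| ≤ 1 := fun w => (Complex.abs_im_le_norm _).trans (h1 w)
  have hrm : Measurable fun w => (g w).re := Complex.measurable_re.comp hg
  have him' : Measurable fun w => (g w).im := Complex.measurable_im.comp hg
  -- the four parts
  have key : ∀ (f : E n → ℝ), Measurable f → (∀ w, |f w| ≤ 1) → (∀ w, w ∉ B → f w = 0) →
      ∀ c : ℂ, ‖c‖ = 1 → N (T fun w => c * (((max (f w) 0 : ℝ)) : ℂ)) ≤ K ∧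
        Measurable (fun w => c * (((max (f w) 0 : ℝ)) : ℂ)) ∧
        (∀ w, ‖c * (((max (f w) 0 : ℝ)) : ℂ)‖ ≤ 1) := by
    intro f hf hf1 hf0 c hc
    refine ⟨?_, ?_, ?_⟩
    · rw [nq_smul hN, ← ofReal_norm, hc, ENNReal.ofReal_one, one_mul]
      refine nq_unit hN hB (hf.max measurable_const) (fun w => le_max_right _ _)
        (fun w => max_le ((le_abs_self _).trans (hf1 w)) zero_le_one) (fun w hw => ?_)
      rw [hf0 w hw, max_self]
    · exact (Complex.measurable_ofReal.comp (hf.max measurable_const)).const_mul _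
    · intro w
      rw [norm_mul, hc, one_mul, Complex.norm_real, Real.norm_of_nonneg (le_max_right _ _)]
      exact max_le ((le_abs_self _).trans (hf1 w)) zero_le_one
  obtain ⟨a1, a2, a3⟩ := key _ hrm hre (fun w hw => by rw [hs w hw]; simp) 1 (by simp)
  obtain ⟨b1, b2, b3⟩ := key (fun w => -(g w).re) hrm.neg (fun w => by rw [abs_neg]; exact hre w)
    (fun w hw => by rw [hs w hw]; simp) (-1) (by simp)
  obtain ⟨c1, c2, c3⟩ := key _ him' him (fun w hw => by rw [hs w hw]; simp) I (by simp)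
  obtain ⟨d1, d2, d3⟩ := key (fun w => -(g w).im) him'.neg (fun w => by rw [abs_neg]; exact him w)
    (fun w hw => by rw [hs w hw]; simp) (-I) (by simp)
  have hdec : g = fun w => (((1 : ℂ) * ((max (g w).re 0 : ℝ) : ℂ) + -1 * ((max (-(g w).re) 0 : ℝ) : ℂ)) +
      (I * ((max (g w).im 0 : ℝ) : ℂ) + -I * ((max (-(g w).im) 0 : ℝ) : ℂ))) := by
    ext w
    have e1 : ∀ t : ℝ, max t 0 - max (-t) 0 = t := fun t => by
      rcases le_total t 0 with h | h
      · rw [max_eq_right h, max_eq_left (by linarith)]; ring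
      · rw [max_eq_left h, max_eq_right (by linarith)]; ring
    have e2 := e1 (g w).re
    have e3 := e1 (g w).im
    conv_lhs => rw [← Complex.re_add_im (g w), ← e2, ← e3]
    push_cast
    ring
  have hb2 : ∀ (u v : E n → ℂ), (∀ w, ‖u w‖ ≤ 1) → (∀ w, ‖v w‖ ≤ 1) → ∀ w, ‖u w + v w‖ ≤ 2 :=
    fun u v hu hv w => (norm_add_le _ _).trans (by linarith [hu w, hv w])
  rw [hdec]
  refine (nq_add hN (a2.add b2) (c2.add d2) (Eventually.of_forall (hb2 _ _ a3 b3))
    (Eventually.of_forall (hb2 _ _ c3 d3))).trans ?_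
  refine (add_le_add (nq_add hN a2 b2 (Eventually.of_forall a3) (Eventually.of_forall b3))
    (nq_add hN c2 d2 (Eventually.of_forall c3) (Eventually.of_forall d3))).trans ?_
  refine (add_le_add (add_le_add a1 b1) (add_le_add c1 d1)).trans (le_of_eq ?_)
  ring

end

end Pool.Agent.U530.SD
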