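import Pool.Agent.U530.SD.Build
set_option autoImplicit false

/-! Weighted local norms. -/

namespace Pool.Agent.U530.SD

open MeasureTheory Set Metric Complex Filter Topology
open Pool.Agent.H789R2.FR (E sg T sg_finite sg_ae sg_inv)
open scoped ENNReal RealInnerProductSpace

noncomputable section

/-- `sup_{R ≥ 1} R^(-a) ‖F‖_{L^p(B_R)}` -/
def NR (n : ℕ) (p a : ℝ) (F : E n → ℂ) : ℝ≥0∞ :=
  ⨆ R : Ici (1 : ℝ), ENNReal.ofReal ((R : ℝ) ^ (-a)) *
    eLpNorm F (ENNReal.ofReal p) (volume.restrict (ball (0 : E n) R))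

variable {n : ℕ}

theorem le_NR (p a : ℝ) (F : E n → ℂ) {R : ℝ} (hR : 1 ≤ R) :
    eLpNorm F (ENNReal.ofReal p) (volume.restrict (ball (0 : E n) R)) ≤
      NR n p a F * ENNReal.ofReal (R ^ a) := by
  have h1 : ENNReal.ofReal (R ^ (-a)) *
      eLpNorm F (ENNReal.ofReal p) (volume.restrict (ball (0 : E n) R)) ≤ NR n p a F :=
    le_iSup (fun R : Ici (1 : ℝ) => ENNReal.ofReal ((R : ℝ) ^ (-a)) *
      eLpNorm F (ENNReal.ofReal p) (volume.restrict (ball (0 : E n) R))) ⟨R, hR⟩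
  have hR0 : 0 < R := by linarith
  calc eLpNorm F (ENNReal.ofReal p) (volume.restrict (ball (0 : E n) R))
      = ENNReal.ofReal (R ^ (-a)) *
          eLpNorm F (ENNReal.ofReal p) (volume.restrict (ball (0 : E n) R)) *
          ENNReal.ofReal (R ^ a) := by
        rw [mul_comm (ENNReal.ofReal (R ^ (-a))), mul_assoc, ← ENNReal.ofReal_mul (by positivity),
          ← Real.rpow_add hR0, neg_add_cancel, Real.rpow_zero, ENNReal.ofReal_one, mul_one]
    _ ≤ NR n p a F * ENNReal.ofReal (R ^ a) := by gcongr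

theorem NR_le {p a : ℝ} {F : E n → ℂ} {K : ℝ≥0∞}
    (h : ∀ R : ℝ, 1 ≤ R → eLpNorm F (ENNReal.ofReal p) (volume.restrict (ball (0 : E n) R)) ≤
      K * ENNReal.ofReal (R ^ a)) : NR n p a F ≤ K := by
  refine iSup_le fun R => ?_
  have hR0 : (0 : ℝ) < R := lt_of_lt_of_le one_pos R.2
  calc ENNReal.ofReal ((R : ℝ) ^ (-a)) *
        eLpNorm F (ENNReal.ofReal p) (volume.restrict (ball (0 : E n) R))
      ≤ ENNReal.ofReal ((R : ℝ) ^ (-a)) * (K * ENNReal.ofReal ((R : ℝ) ^ a)) := by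
        gcongr
        exact h R R.2
    _ = K := by
        rw [mul_comm K, ← mul_assoc, ← ENNReal.ofReal_mul (by positivity),
          ← Real.rpow_add hR0, neg_add_cancel, Real.rpow_zero, ENNReal.ofReal_one, one_mul]

theorem NR_nrm {p : ℝ} (hp : 1 ≤ p) (a : ℝ) : Nrm (NR n p a) := by
  have hp' : 1 ≤ ENNReal.ofReal p := by
    rw [← ENNReal.ofReal_one]
    exact ENNReal.ofReal_le_ofReal hp
  refine ⟨fun F H hF hH => ?_, fun c F => ?_, fun F F' K hF hlim hK => ?_, fun L F hF => ?_⟩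
  · refine NR_le fun R hR => ?_
    refine (eLpNorm_add_le hF.restrict hH.restrict hp').trans ?_
    rw [add_mul]
    exact add_le_add (le_NR p a F hR) (le_NR p a H hR)
  · unfold NR
    rw [ENNReal.mul_iSup]
    congr 1
    ext R
    rw [eLpNorm_const_smul]
    ring
  · refine NR_le fun R hR => ?_
    refine (Lp.eLpNorm_lim_le_liminf_eLpNorm (fun j => (hF j).restrict) F'
      (Eventually.of_forall hlim)).trans ?_
    refine liminf_le_of_le (by isBoundedDefault) fun b hb => ?_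
    obtain ⟨j, hj⟩ := hb.exists
    refine hj.trans ((le_NR p a (F j) hR).trans ?_)
    gcongr
    exact hK j
  · unfold NR
    congr 1
    ext R
    congr 1
    have h1 : L ⁻¹' ball (0 : E n) R = ball (0 : E n) R := by
      ext x
      simp
    have h2 := L.measurePreserving.restrict_preimage (s := ball (0 : E n) R) measurableSet_ball
    rw [h1] at h2
    exact eLpNorm_comp_measurePreserving hF.restrict h2

theorem le_NR_zero {p : ℝ} {F : E n → ℂ} (hF : AEStronglyMeasurable F volume) :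
    eLpNorm F (ENNReal.ofReal p) volume ≤ NR n p 0 F := by
  have h1 : ∀ j : ℕ, eLpNorm ((ball (0 : E n) ((j : ℝ) + 1)).indicator F) (ENNReal.ofReal p)
      volume ≤ NR n p 0 F := by
    intro j
    rw [eLpNorm_indicator_eq_eLpNorm_restrict measurableSet_ball]
    have := le_NR p 0 F (show (1 : ℝ) ≤ (j : ℝ) + 1 by
      have : (0 : ℝ) ≤ j := Nat.cast_nonneg j
      linarith)
    rwa [Real.rpow_zero, ENNReal.ofReal_one, mul_one] at this
  refine (Lp.eLpNorm_lim_le_liminf_eLpNorm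
    (f := fun j : ℕ => (ball (0 : E n) ((j : ℝ) + 1)).indicator F)
    (fun j => hF.indicator measurableSet_ball) F (Eventually.of_forall fun x => ?_)).trans ?_
  · refine tendsto_const_nhds.congr' ?_
    obtain ⟨m, hm⟩ := exists_nat_gt ‖x‖
    filter_upwards [eventually_ge_atTop m] with j hj
    rw [indicator_of_mem]
    rw [mem_ball_zero_iff]
    have : (m : ℝ) ≤ j := by exact_mod_cast hj
    linarith
  · refine liminf_le_of_le (by isBoundedDefault) fun b hb => ?_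
    obtain ⟨j, hj⟩ := hb.exists
    exact hj.trans (h1 j)

theorem NR_zero_le {p : ℝ} {F : E n → ℂ} :
    NR n p 0 F ≤ eLpNorm F (ENNReal.ofReal p) volume := by
  refine NR_le fun R hR => ?_
  rw [Real.rpow_zero, ENNReal.ofReal_one, mul_one]
  exact eLpNorm_mono_measure _ Measure.restrict_le_self

/-- bounded functions: the norm for a larger exponent -/
theorem interp {F : E n → ℂ} {μ : Measure (E n)} {M : ℝ} (hM : ∀ x, ‖F x‖ ≤ M) {p q : ℝ}
    (hp : 0 < p) (hpq : p ≤ q) :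
    eLpNorm F (ENNReal.ofReal q) μ ≤
      ENNReal.ofReal M ^ (1 - p / q) * eLpNorm F (ENNReal.ofReal p) μ ^ (p / q) := by
  have hq : 0 < q := hp.trans_le hpq
  have hM0 : 0 ≤ M := (norm_nonneg _).trans (hM 0)
  rw [eLpNorm_eq_lintegral_rpow_enorm_toReal (by simpa using hq) ENNReal.ofReal_ne_top,
    eLpNorm_eq_lintegral_rpow_enorm_toReal (by simpa using hp) ENNReal.ofReal_ne_top,
    ENNReal.toReal_ofReal hp.le, ENNReal.toReal_ofReal hq.le]
  have h0 : ∫⁻ x, ‖F x‖ₑ ^ q ∂μ ≤ ENNReal.ofReal M ^ (q - p) * ∫⁻ x, ‖F x‖ₑ ^ p ∂μ := by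
    rw [← lintegral_const_mul' _ _ (ENNReal.rpow_ne_top_of_nonneg (sub_nonneg.2 hpq)
      ENNReal.ofReal_ne_top)]
    refine lintegral_mono fun x => ?_
    have h1 : ‖F x‖ₑ ≤ ENNReal.ofReal M := by
      rw [← ofReal_norm]
      exact ENNReal.ofReal_le_ofReal (hM x)
    calc ‖F x‖ₑ ^ q = ‖F x‖ₑ ^ (q - p) * ‖F x‖ₑ ^ p := by
          rw [← ENNReal.rpow_add_of_nonneg _ _ (sub_nonneg.2 hpq) hp.le]
          congr 1
          ring
      _ ≤ ENNReal.ofReal M ^ (q - p) * ‖F x‖ₑ ^ p := by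
          gcongr
  calc (∫⁻ x, ‖F x‖ₑ ^ q ∂μ) ^ (1 / q)
      ≤ (ENNReal.ofReal M ^ (q - p) * ∫⁻ x, ‖F x‖ₑ ^ p ∂μ) ^ (1 / q) :=
        ENNReal.rpow_le_rpow h0 (by positivity)
    _ = _ := by
        rw [ENNReal.mul_rpow_of_nonneg _ _ (by positivity), ← ENNReal.rpow_mul, ← ENNReal.rpow_mul]
        congr 2
        · field_simp
        · field_simp

theorem NR_mono_top {F : E n → ℂ} {M : ℝ} (hM : ∀ x, ‖F x‖ ≤ M) {p q a c : ℝ}
    (hp : 0 < p) (hpq : p ≤ q) (ha : 0 ≤ a) (hac : a ≤ c) (h : NR n q c F = ⊤) :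
    NR n p a F = ⊤ := by
  by_contra hcon
  have hq : 0 < q := hp.trans_le hpq
  have hpq' : p / q ≤ 1 := (div_le_one hq).2 hpq
  have hpq0 : 0 ≤ p / q := by positivity
  refine absurd h (ne_top_of_le_ne_top (b := ENNReal.ofReal M ^ (1 - p / q) * NR n p a F ^ (p / q))
    ?_ (NR_le fun R hR => ?_))
  · exact ENNReal.mul_ne_top (ENNReal.rpow_ne_top_of_nonneg (sub_nonneg.2 hpq')
      ENNReal.ofReal_ne_top) (ENNReal.rpow_ne_top_of_nonneg hpq0 hcon)
  · have hR0 : 0 < R := by linarith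
    refine (interp hM hp hpq).trans ?_
    rw [mul_assoc]
    gcongr
    calc eLpNorm F (ENNReal.ofReal p) (volume.restrict (ball (0 : E n) R)) ^ (p / q)
        ≤ (NR n p a F * ENNReal.ofReal (R ^ a)) ^ (p / q) :=
          ENNReal.rpow_le_rpow (le_NR p a F hR) hpq0
      _ = NR n p a F ^ (p / q) * ENNReal.ofReal (R ^ (a * (p / q))) := by
          rw [ENNReal.mul_rpow_of_nonneg _ _ hpq0,
            ENNReal.ofReal_rpow_of_pos (by positivity), ← Real.rpow_mul hR0.le]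
      _ ≤ NR n p a F ^ (p / q) * ENNReal.ofReal (R ^ c) := by
          gcongr
          calc a * (p / q) ≤ a * 1 := mul_le_mul_of_nonneg_left hpq' ha
            _ ≤ c := by linarith

/-- bounds for a larger exponent give bounds for a smaller one -/
theorem bd_down {p q b c : ℝ} (hp : 1 ≤ p) (hpq : p ≤ q)
    (hb : (n : ℝ) * (q - p) + c ≤ b) (h : Bd (NR n q c)) : Bd (NR n p b) := by
  obtain ⟨C, hC, h⟩ := h
  have hp0 : 0 < p := by linarith
  have hq0 : 0 < q := by linarith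
  set δ : ℝ := 1 / p - 1 / q with hδ
  have hδ0 : 0 ≤ δ := sub_nonneg.2 (one_div_le_one_div_of_le hp0 hpq)
  have hδ1 : δ ≤ q - p := by
    rw [hδ, div_sub_div _ _ hp0.ne' hq0.ne', one_mul, mul_one, div_le_iff₀ (by positivity)]
    have h1 : 1 ≤ p * q := by nlinarith
    nlinarith
  set v : ℝ≥0∞ := volume (ball (0 : E n) 1) with hv
  have hvt : v ≠ ⊤ := measure_ball_lt_top.ne
  refine ⟨C * v ^ δ, ENNReal.mul_ne_top hC (ENNReal.rpow_ne_top_of_nonneg hδ0 hvt),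
    fun g hg hg1 => NR_le fun R hR => ?_⟩
  have hR0 : 0 < R := by linarith
  have h1 := eLpNorm_le_eLpNorm_mul_rpow_measure_univ (p := ENNReal.ofReal p)
    (q := ENNReal.ofReal q) (ENNReal.ofReal_le_ofReal hpq)
    ((T_meas g hg).restrict (s := ball (0 : E n) R))
  rw [ENNReal.toReal_ofReal hp0.le, ENNReal.toReal_ofReal hq0.le, Measure.restrict_apply_univ,
    ← hδ, Measure.addHaar_ball_of_pos _ _ hR0, finrank_euclideanSpace_fin, ← hv] at h1
  refine h1.trans ?_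
  calc eLpNorm (T g) (ENNReal.ofReal q) (volume.restrict (ball (0 : E n) R)) *
        (ENNReal.ofReal (R ^ n) * v) ^ δ
      ≤ (C * ENNReal.ofReal (R ^ c)) * (ENNReal.ofReal (R ^ n) * v) ^ δ := by
        gcongr
        refine (le_NR q c (T g) hR).trans ?_
        gcongr
        exact h g hg hg1
    _ = C * v ^ δ * ENNReal.ofReal (R ^ ((n : ℝ) * δ + c)) := by
        rw [ENNReal.mul_rpow_of_nonneg _ _ hδ0, ENNReal.ofReal_rpow_of_pos (by positivity),
          ← Real.rpow_natCast, ← Real.rpow_mul hR0.le, Real.rpow_add hR0,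
          ENNReal.ofReal_mul (by positivity)]
        ring
    _ ≤ C * v ^ δ * ENNReal.ofReal (R ^ b) := by
        gcongr
        have : (n : ℝ) * δ ≤ n * (q - p) := mul_le_mul_of_nonneg_left hδ1 (Nat.cast_nonneg n)
        linarith

/-- the countable set of norms -/
theorem exists_index (n : ℕ) : ∃ D : Set (ℝ × ℝ), D.Countable ∧
    (∀ d ∈ D, 1 ≤ d.1 ∧ ¬ Bd (NR n d.1 d.2)) ∧
    (∀ p : ℝ, 1 ≤ p → ¬ Bd (NR n p 0) → ∃ q : ℝ, (q, (0 : ℝ)) ∈ D ∧ p ≤ q) ∧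
    ∀ p a b : ℝ, 1 ≤ p → 0 ≤ a → a < b → ¬ Bd (NR n p b) → ∃ q c : ℝ, (q, c) ∈ D ∧ p ≤ q ∧ a ≤ c := by
  obtain ⟨D0, hD0, hD0S, hcof⟩ := exists_cofinal {p : ℝ | 1 ≤ p ∧ ¬ Bd (NR n p 0)}
  refine ⟨(fun q : ℝ => (q, (0 : ℝ))) '' D0 ∪
    {d | (∃ r s : ℚ, d = ((r : ℝ), (s : ℝ))) ∧ 1 ≤ d.1 ∧ ¬ Bd (NR n d.1 d.2)}, ?_, ?_, ?_, ?_⟩
  · refine (hD0.image _).union (Countable.mono (s₂ := range fun x : ℚ × ℚ => ((x.1 : ℝ), (x.2 : ℝ)))
      ?_ (countable_range _))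
    rintro d ⟨⟨r, s, rfl⟩, -⟩
    exact ⟨(r, s), rfl⟩
  · rintro d (⟨q, hq, rfl⟩ | ⟨-, h⟩)
    · exact hD0S hq
    · exact h
  · intro p hp hB
    obtain ⟨q, hq, hpq⟩ := hcof p ⟨hp, hB⟩
    exact ⟨q, Or.inl ⟨q, hq, rfl⟩, hpq⟩
  · intro p a b hp ha hab hB
    obtain ⟨s, hs1, hs2⟩ := exists_rat_btwn hab
    have h1 : 0 < (b - s) / ((n : ℝ) + 1) := by
      have : 0 < b - s := sub_pos.2 hs2
      positivity
    obtain ⟨r, hr1, hr2⟩ := exists_rat_btwn (show p < p + (b - s) / ((n : ℝ) + 1) by linarith)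
    refine ⟨r, s, Or.inr ⟨⟨r, s, rfl⟩, by simpa using hp.trans hr1.le, fun h => hB ?_⟩, hr1.le, hs1.le⟩
    refine bd_down hp hr1.le ?_ h
    have h2 : (r : ℝ) - p < (b - s) / ((n : ℝ) + 1) := by linarith
    rw [lt_div_iff₀ (by positivity)] at h2
    have h3 : 0 ≤ (r : ℝ) - p := by linarith
    have h4 : (n : ℝ) * (r - p) ≤ (r - p) * (n + 1) := by nlinarith
    simp only
    linarith

/-- `F` decides all the estimates -/
def Decides (n : ℕ) (F : E n → ℂ) : Prop :=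
  (∀ p : ℝ, 1 ≤ p → NR n p 0 F ≠ ⊤ → Bd (NR n p 0)) ∧
  ∀ p a b : ℝ, 1 ≤ p → 0 ≤ a → a < b → NR n p a F ≠ ⊤ → Bd (NR n p b)

theorem decides_of_top {F : E n → ℂ} {M : ℝ} (hM : ∀ x, ‖F x‖ ≤ M) {D : Set (ℝ × ℝ)}
    (hD3 : ∀ p : ℝ, 1 ≤ p → ¬ Bd (NR n p 0) → ∃ q : ℝ, (q, (0 : ℝ)) ∈ D ∧ p ≤ q)
    (hD4 : ∀ p a b : ℝ, 1 ≤ p → 0 ≤ a → a < b → ¬ Bd (NR n p b) →
      ∃ q c : ℝ, (q, c) ∈ D ∧ p ≤ q ∧ a ≤ c)
    (h : ∀ d : D, NR n (d : ℝ × ℝ).1 (d : ℝ × ℝ).2 F = ⊤) : Decides n F := by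
  refine ⟨fun p hp hne => ?_, fun p a b hp ha hab hne => ?_⟩
  · by_contra hB
    obtain ⟨q, hq, hpq⟩ := hD3 p hp hB
    exact hne (NR_mono_top hM (by linarith) hpq le_rfl le_rfl (h ⟨_, hq⟩))
  · by_contra hB
    obtain ⟨q, c, hq, hpq, hac⟩ := hD4 p a b hp ha hab hB
    exact hne (NR_mono_top hM (by linarith) hpq ha hac (h ⟨_, hq⟩))

end

end Pool.Agent.U530.SD
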