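import Pool.Agent.U530.SD.Core
set_option autoImplicit false

/-! The normalisation `ξ ↦ 2πξ`. -/

namespace Pool.Agent.U530.SD

open MeasureTheory Set Metric Complex Filter Topology
open Pool.Agent.H789R2.FR (E sg T sg_finite sg_ae sg_inv)
open scoped ENNReal RealInnerProductSpace ContDiff

noncomputable section

variable {n : ℕ}

/-- the Fourier transform of `g dσ` -/
def ftS {n : ℕ} (g : sphere (0 : E n) 1 → ℂ) (ξ : E n) : ℂ :=
  ∫ x, Complex.exp (-(2 * Real.pi * ⟪(x : E n), ξ⟫ : ℝ) * I) * g x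
    ∂((volume : Measure (E n)).toSphere)

theorem ftS_TS (g : sphere (0 : E n) 1 → ℂ) : ftS g = TS g ∘ fun ξ => (2 * Real.pi) • ξ := by
  ext ξ
  unfold ftS TS
  simp only [Function.comp]
  congr 1
  ext x
  rw [real_inner_smul_left, real_inner_comm]

/-- the factor between the two normalisations -/
def kap (n : ℕ) (p : ℝ) : ℝ≥0∞ := ENNReal.ofReal |((2 * Real.pi) ^ n)⁻¹| ^ (1 / ENNReal.ofReal p).toReal

theorem kap_ne (n : ℕ) (p : ℝ) : kap n p ≠ 0 ∧ kap n p ≠ ⊤ := by
  have h : (0 : ℝ) < |((2 * Real.pi) ^ n)⁻¹| := by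
    have := Real.pi_pos
    positivity
  unfold kap
  constructor
  · exact (ENNReal.rpow_pos (by simpa using h) ENNReal.ofReal_ne_top).ne'
  · exact ENNReal.rpow_ne_top_of_nonneg ENNReal.toReal_nonneg ENNReal.ofReal_ne_top

theorem TS_meas {g : sphere (0 : E n) 1 → ℂ} (hg : Measurable g) {M : ℝ} (h1 : ∀ x, ‖g x‖ ≤ M) :
    Measurable (TS g) := by
  obtain ⟨G, hG, -, he⟩ := exists_ext hg (le_max_right M 0) (fun x => (h1 x).trans (le_max_left _ _))
  rw [← he, TS_T G hG]
  exact Pool.Agent.H438R2.PD.T_meas' G hG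

theorem ftS_meas {g : sphere (0 : E n) 1 → ℂ} (hg : Measurable g) {M : ℝ} (h1 : ∀ x, ‖g x‖ ≤ M) :
    Measurable (ftS g) := by
  rw [ftS_TS]
  exact (TS_meas hg h1).comp (by fun_prop)

theorem scale_norm {F : E n → ℂ} (hF : Measurable F) (p : ℝ) :
    eLpNorm (F ∘ fun ξ => (2 * Real.pi) • ξ) (ENNReal.ofReal p) volume =
      kap n p * eLpNorm F (ENNReal.ofReal p) volume := by
  have h2pi : (2 * Real.pi) ≠ 0 := by positivity
  rw [← eLpNorm_map_measure hF.aestronglyMeasurable (by fun_prop),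
    Measure.map_addHaar_smul (volume : Measure (E n)) h2pi, finrank_euclideanSpace_fin,
    eLpNorm_smul_measure_of_ne_zero, smul_eq_mul]
  · rfl
  · have : (0 : ℝ) < |((2 * Real.pi) ^ n)⁻¹| := by
      have := Real.pi_pos
      positivity
    simpa using this

theorem scale_local {F : E n → ℂ} (hF : Measurable F) (p R : ℝ) :
    eLpNorm (F ∘ fun ξ => (2 * Real.pi) • ξ) (ENNReal.ofReal p) (volume.restrict (ball (0 : E n) R)) =
      kap n p * eLpNorm F (ENNReal.ofReal p) (volume.restrict (ball (0 : E n) (2 * Real.pi * R))) := by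
  have hpos : 0 < 2 * Real.pi := by positivity
  have h2pi : (2 * Real.pi) ≠ 0 := by positivity
  have hpre : (fun ξ : E n => (2 * Real.pi) • ξ) ⁻¹' ball (0 : E n) (2 * Real.pi * R) =
      ball (0 : E n) R := by
    ext ξ
    rw [mem_preimage, mem_ball_zero_iff, mem_ball_zero_iff, norm_smul, Real.norm_of_nonneg hpos.le]
    exact mul_lt_mul_iff_right₀ hpos
  have hm : Measurable fun ξ : E n => (2 * Real.pi) • ξ := by fun_prop
  have hmap : Measure.map (fun ξ : E n => (2 * Real.pi) • ξ) (volume.restrict (ball (0 : E n) R)) =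
      ENNReal.ofReal |((2 * Real.pi) ^ n)⁻¹| •
        (volume : Measure (E n)).restrict (ball (0 : E n) (2 * Real.pi * R)) := by
    rw [← hpre, ← Measure.restrict_map hm measurableSet_ball,
      Measure.map_addHaar_smul (volume : Measure (E n)) h2pi, finrank_euclideanSpace_fin,
      Measure.restrict_smul]
  rw [← eLpNorm_map_measure hF.aestronglyMeasurable hm.aemeasurable, hmap,
    eLpNorm_smul_measure_of_ne_zero, smul_eq_mul]
  · rfl
  · have : (0 : ℝ) < |((2 * Real.pi) ^ n)⁻¹| := by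
      have := Real.pi_pos
      positivity
    simpa using this

/-! ### The estimates for `ftS` -/

theorem memLp_ftS {g : sphere (0 : E n) 1 → ℂ} {p : ℝ} (h : MemLp (ftS g) (ENNReal.ofReal p) volume)
    (hm : Measurable (TS g)) : NR n p 0 (TS g) ≠ ⊤ := by
  refine ne_top_of_le_ne_top ?_ NR_zero_le
  intro h2
  have h3 := h.2
  rw [ftS_TS, scale_norm hm, h2, ENNReal.mul_top (kap_ne n p).1] at h3
  exact lt_irrefl _ h3

theorem bound_ftS {p : ℝ} (h : Bd (NR n p 0)) : ∃ C : ℝ, ∀ g : sphere (0 : E n) 1 → ℂ,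
    Measurable g → (∀ x, ‖g x‖ ≤ 1) →
      eLpNorm (ftS g) (ENNReal.ofReal p) volume ≤ ENNReal.ofReal C := by
  obtain ⟨C, hC, h⟩ := h
  refine ⟨(kap n p * C).toReal, fun g hg h1 => ?_⟩
  obtain ⟨G, hG, hG1, he⟩ := exists_ext hg zero_le_one h1
  rw [ENNReal.ofReal_toReal (ENNReal.mul_ne_top (kap_ne n p).2 hC), ftS_TS,
    scale_norm (TS_meas hg h1)]
  gcongr
  rw [← he, TS_T G hG]
  exact (le_NR_zero (T_meas G hG)).trans (h G hG hG1)

theorem growth_ftS {g : sphere (0 : E n) 1 → ℂ} {p a C : ℝ} (hm : Measurable (TS g))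
    (h : ∀ R : ℝ, 1 ≤ R → eLpNorm (ftS g) (ENNReal.ofReal p)
      (volume.restrict (ball (0 : E n) R)) ≤ ENNReal.ofReal (C * R ^ a)) : NR n p a (TS g) ≠ ⊤ := by
  have hk := kap_ne n p
  refine ne_top_of_le_ne_top (b := (kap n p)⁻¹ * ENNReal.ofReal C)
    (ENNReal.mul_ne_top (ENNReal.inv_ne_top.2 hk.1) ENNReal.ofReal_ne_top) (NR_le fun R hR => ?_)
  have hR0 : 0 < R := by linarith
  have h1 := h R hR
  rw [ftS_TS, scale_local hm] at h1
  have h2 : eLpNorm (TS g) (ENNReal.ofReal p) (volume.restrict (ball (0 : E n) R)) ≤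
      eLpNorm (TS g) (ENNReal.ofReal p) (volume.restrict (ball (0 : E n) (2 * Real.pi * R))) := by
    refine eLpNorm_mono_measure _ (Measure.restrict_mono (ball_subset_ball ?_) le_rfl)
    have : 1 ≤ 2 * Real.pi := by linarith [Real.two_le_pi]
    nlinarith
  calc eLpNorm (TS g) (ENNReal.ofReal p) (volume.restrict (ball (0 : E n) R))
      ≤ eLpNorm (TS g) (ENNReal.ofReal p) (volume.restrict (ball (0 : E n) (2 * Real.pi * R))) := h2
    _ = (kap n p)⁻¹ * (kap n p * eLpNorm (TS g) (ENNReal.ofReal p)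
          (volume.restrict (ball (0 : E n) (2 * Real.pi * R)))) := by
        rw [← mul_assoc, ENNReal.inv_mul_cancel hk.1 hk.2, one_mul]
    _ ≤ (kap n p)⁻¹ * ENNReal.ofReal (C * R ^ a) := by gcongr
    _ = (kap n p)⁻¹ * ENNReal.ofReal C * ENNReal.ofReal (R ^ a) := by
        rw [mul_comm C, ENNReal.ofReal_mul (by positivity)]
        ring

theorem local_ftS {p b : ℝ} (h : Bd (NR n p b)) : ∃ C : ℝ, ∀ g : sphere (0 : E n) 1 → ℂ,
    Measurable g → (∀ x, ‖g x‖ ≤ 1) → ∀ R : ℝ, 1 ≤ R →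
      eLpNorm (ftS g) (ENNReal.ofReal p) (volume.restrict (ball (0 : E n) R)) ≤
        ENNReal.ofReal (C * R ^ b) := by
  obtain ⟨C, hC, h⟩ := h
  have hpos : 0 < 2 * Real.pi := by positivity
  refine ⟨(kap n p * C).toReal * (2 * Real.pi) ^ b, fun g hg h1 R hR => ?_⟩
  have hR0 : 0 < R := by linarith
  obtain ⟨G, hG, hG1, he⟩ := exists_ext hg zero_le_one h1
  have h2 : 1 ≤ 2 * Real.pi * R := by
    have : 1 ≤ 2 * Real.pi := by linarith [Real.two_le_pi]
    nlinarith
  have h3 : (kap n p * C).toReal * (2 * Real.pi) ^ b * R ^ b =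
      (kap n p * C).toReal * (2 * Real.pi * R) ^ b := by
    rw [Real.mul_rpow hpos.le hR0.le]
    ring
  rw [h3, ftS_TS, scale_local (TS_meas hg h1), ENNReal.ofReal_mul ENNReal.toReal_nonneg,
    ENNReal.ofReal_toReal (ENNReal.mul_ne_top (kap_ne n p).2 hC), mul_assoc (kap n p)]
  gcongr
  rw [← he, TS_T G hG]
  refine (le_NR p b (T G) h2).trans ?_
  gcongr
  exact h G hG hG1

end

end Pool.Agent.U530.SD
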