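import Pool.Agent.U530.SD.Cover
set_option autoImplicit false

/-! Smooth densities suffice; the abstract Baire argument; a cofinal countable set of exponents. -/

namespace Pool.Agent.U530.SD

open MeasureTheory Set Metric Complex Filter Topology
open Pool.Agent.H789R2.FR (E sg T sg_finite sg_ae sg_inv)
open scoped ENNReal RealInnerProductSpace ContDiff

noncomputable section

variable {n : ℕ} {N : (E n → ℂ) → ℝ≥0∞}

/-- smooth functions with values in `[0, 1]` which vanish outside `O` -/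
def Sm (O : Set (E n)) (φ : E n → ℝ) : Prop :=
  ContDiff ℝ ∞ φ ∧ (∀ w, 0 ≤ φ w ∧ φ w ≤ 1) ∧ ∀ w, w ∉ O → φ w = 0

theorem Sm.meas {O : Set (E n)} {φ : E n → ℝ} (h : Sm O φ) : Measurable φ :=
  h.1.continuous.measurable

theorem fam_of_smooth (hN : Nrm N) {O : Set (E n)} (hO : IsOpen O) {K : ℝ≥0∞}
    (hK : ∀ φ : E n → ℝ, Sm O φ → N (T fun w => (φ w : ℂ)) ≤ K)
    {F : Finset (E n × ℝ)} (hF : Fam O F) :
    N (T ((un F).indicator (fun _ => (1 : ℂ)))) ≤ K := by
  classical
  -- room around the balls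
  have h1 : ∃ m0 : ℕ, ∀ b ∈ F, ball b.1 (1 / ((m0 : ℝ) + 1) + b.2) ⊆ O := by
    have h2 : ∀ b ∈ F, ∃ m0 : ℕ, ∀ m : ℕ, m0 ≤ m → ball b.1 (1 / ((m : ℝ) + 1) + b.2) ⊆ O := by
      intro b hb
      obtain ⟨-, hb2, hb3⟩ := hF.1 b hb
      obtain ⟨δ, hδ, hsub⟩ := (isCompact_closedBall b.1 b.2).exists_thickening_subset_open hO hb3
      rw [thickening_closedBall hδ hb2.le] at hsub
      obtain ⟨m0, hm0⟩ := exists_nat_one_div_lt hδ
      refine ⟨m0, fun m hm => (ball_subset_ball ?_).trans hsub⟩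
      have h3 : 1 / ((m : ℝ) + 1) ≤ 1 / ((m0 : ℝ) + 1) := by
        apply one_div_le_one_div_of_le (by positivity)
        have : (m0 : ℝ) ≤ m := by exact_mod_cast hm
        linarith
      linarith
    choose! g hg using h2
    refine ⟨F.sup g, fun b hb => hg b hb _ (Finset.le_sup hb)⟩
  obtain ⟨m0, hm0⟩ := h1
  set B : (m : ℕ) → (b : E n × ℝ) → E n → ℝ := fun m b =>
    if h : 0 < b.2 then
      (⟨b.2, 1 / (((m0 + m : ℕ) : ℝ) + 1) + b.2, h, by
        have : (0 : ℝ) < 1 / (((m0 + m : ℕ) : ℝ) + 1) := by positivity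
        linarith⟩ : ContDiffBump b.1)
    else fun _ => 0 with hBdef
  have hB : ∀ m b, 0 < b.2 → ContDiff ℝ ∞ (B m b) ∧ (∀ w, 0 ≤ B m b w ∧ B m b w ≤ 1) ∧
      (∀ w, w ∈ closedBall b.1 b.2 → B m b w = 1) ∧
      (∀ w, w ∉ ball b.1 (1 / (((m0 + m : ℕ) : ℝ) + 1) + b.2) → B m b w = 0) := by
    intro m b hb
    have e : B m b = (⟨b.2, 1 / (((m0 + m : ℕ) : ℝ) + 1) + b.2, hb, by
        have : (0 : ℝ) < 1 / (((m0 + m : ℕ) : ℝ) + 1) := by positivity
        linarith⟩ : ContDiffBump b.1) := by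
      simp only [hBdef, dif_pos hb]
    rw [e]
    refine ⟨ContDiffBump.contDiff _, fun w => ⟨ContDiffBump.nonneg _, ContDiffBump.le_one _⟩,
      fun w hw => ContDiffBump.one_of_mem_closedBall _ hw, fun w hw => ?_⟩
    refine ContDiffBump.zero_of_le_dist _ ?_
    rw [mem_ball, not_lt] at hw
    exact hw
  have hpos : ∀ b ∈ F, 0 < b.2 := fun b hb => (hF.1 b hb).2.1
  set φ : ℕ → E n → ℝ := fun m w => 1 - ∏ b ∈ F, (1 - B m b w) with hφ
  have hφS : ∀ m, Sm O (φ m) := by
    intro m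
    refine ⟨?_, fun w => ⟨?_, ?_⟩, fun w hw => ?_⟩
    · refine contDiff_const.sub (contDiff_prod fun b hb => contDiff_const.sub (hB m b (hpos b hb)).1)
    · have : ∏ b ∈ F, (1 - B m b w) ≤ 1 := Finset.prod_le_one
        (fun b hb => by linarith [((hB m b (hpos b hb)).2.1 w).2])
        (fun b hb => by linarith [((hB m b (hpos b hb)).2.1 w).1])
      show 0 ≤ 1 - _
      linarith
    · have : 0 ≤ ∏ b ∈ F, (1 - B m b w) := Finset.prod_nonneg
        (fun b hb => by linarith [((hB m b (hpos b hb)).2.1 w).2])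
      show 1 - _ ≤ (1 : ℝ)
      linarith
    · have : ∏ b ∈ F, (1 - B m b w) = 1 := by
        refine Finset.prod_eq_one fun b hb => ?_
        rw [(hB m b (hpos b hb)).2.2.2 w, sub_zero]
        intro hw2
        refine hw (hm0 b hb (ball_subset_ball ?_ hw2))
        have : 1 / (((m0 + m : ℕ) : ℝ) + 1) ≤ 1 / ((m0 : ℝ) + 1) := by
          apply one_div_le_one_div_of_le (by positivity)
          push_cast
          have : (0 : ℝ) ≤ m := Nat.cast_nonneg m
          linarith
        linarith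
      show 1 - _ = (0 : ℝ)
      rw [this, sub_self]
  refine nq_lim hN (g := fun m w => (φ m w : ℂ))
    (fun m => Complex.measurable_ofReal.comp (hφS m).meas)
    (T_tendsto (M := 1) (fun m => Complex.measurable_ofReal.comp (hφS m).meas) (fun m => ?_)
      (Eventually.of_forall fun w => ?_)) (fun m => hK _ (hφS m))
  · refine Eventually.of_forall fun w => ?_
    rw [Complex.norm_real, Real.norm_of_nonneg ((hφS m).2.1 w).1]
    exact ((hφS m).2.1 w).2
  · have key : ∀ᶠ m in atTop, φ m w = (un F).indicator (fun _ => (1 : ℝ)) w := by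
      by_cases hw : w ∈ un F
      · refine Eventually.of_forall fun m => ?_
        obtain ⟨b, hb, hwb⟩ := mem_iUnion₂.1 hw
        rw [indicator_of_mem hw]
        show 1 - ∏ b ∈ F, (1 - B m b w) = 1
        rw [Finset.prod_eq_zero hb (by rw [(hB m b (hpos b hb)).2.2.1 w hwb, sub_self]), sub_zero]
      · rw [indicator_of_notMem hw]
        have h3 : ∀ b ∈ F, ∀ᶠ m in atTop, B m b w = 0 := by
          intro b hb
          have h4 : b.2 < dist w b.1 := by
            by_contra hcon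
            rw [not_lt] at hcon
            exact hw (mem_iUnion₂.2 ⟨b, hb, mem_closedBall.2 hcon⟩)
          obtain ⟨m1, hm1⟩ := exists_nat_one_div_lt (sub_pos.2 h4)
          filter_upwards [eventually_ge_atTop m1] with m hm
          refine (hB m b (hpos b hb)).2.2.2 w ?_
          rw [mem_ball, not_lt]
          have h5 : 1 / (((m0 + m : ℕ) : ℝ) + 1) ≤ 1 / ((m1 : ℝ) + 1) := by
            apply one_div_le_one_div_of_le (by positivity)
            push_cast
            have : (m1 : ℝ) ≤ m := by exact_mod_cast hm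
            have : (0 : ℝ) ≤ m0 := Nat.cast_nonneg m0
            linarith
          linarith
        have h6 : ∀ᶠ m in atTop, ∀ b ∈ F, B m b w = 0 :=
          (Filter.eventually_all_finset F).2 h3
        filter_upwards [h6] with m hm
        show 1 - ∏ b ∈ F, (1 - B m b w) = 0
        rw [Finset.prod_eq_one (fun b hb => by rw [hm b hb, sub_zero]), sub_self]
    refine tendsto_const_nhds.congr' ?_
    filter_upwards [key] with m hm
    rw [hm]
    by_cases hw : w ∈ un F
    · rw [indicator_of_mem hw, indicator_of_mem hw]; simp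
    · rw [indicator_of_notMem hw, indicator_of_notMem hw]; simp

theorem bd_of_smooth (hn : 2 ≤ n) (hN : Nrm N) {x : E n} (hx : ‖x‖ = 1) {r : ℝ} (hr : 0 < r)
    {K : ℝ≥0∞} (hK' : K ≠ ⊤)
    (hK : ∀ φ : E n → ℝ, Sm (ball x r) φ → N (T fun w => (φ w : ℂ)) ≤ K) : Bd N :=
  bd_of_fam hn hN hx hr hK' fun _ hF => fam_of_smooth hN isOpen_ball hK hF

/-- the Baire category argument -/
theorem baire_all {X : Type*} [TopologicalSpace X] [BaireSpace X] [SequentialSpace X]
    (F : X → E n → ℂ) (hF : ∀ x, AEStronglyMeasurable (F x) volume)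
    (hc : ∀ ξ, Continuous fun x => F x ξ) {ι : Type*} [Countable ι]
    {N : ι → (E n → ℂ) → ℝ≥0∞} (hN : ∀ i, Nrm (N i))
    (h : ∀ i, ∀ M : ℕ, Dense {x | (M : ℝ≥0∞) < N i (F x)}) :
    ∀ᶠ x in residual X, ∀ i, N i (F x) = ⊤ := by
  rw [eventually_countable_forall]
  intro i
  have h1 : ∀ᶠ x in residual X, ∀ M : ℕ, (M : ℝ≥0∞) < N i (F x) := by
    rw [eventually_countable_forall]
    intro M
    refine residual_of_dense_open ?_ (h i M)
    have h2 : IsClosed {x | N i (F x) ≤ (M : ℝ≥0∞)} := by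
      refine IsSeqClosed.isClosed fun u x hu hux => ?_
      exact (hN i).fatou (fun j => F (u j)) (F x) M (fun j => hF (u j))
        (fun ξ => ((hc ξ).tendsto x).comp hux) hu
    have h4 : {x | (M : ℝ≥0∞) < N i (F x)} = {x | N i (F x) ≤ (M : ℝ≥0∞)}ᶜ := by
      ext x
      simp
    rw [h4]
    exact h2.isOpen_compl
  filter_upwards [h1] with x hx
  by_contra hne
  obtain ⟨M, hM⟩ := ENNReal.exists_nat_gt hne
  exact absurd (hx M) (not_lt.2 hM.le)

theorem exists_cofinal (S : Set ℝ) : ∃ D : Set ℝ, D.Countable ∧ D ⊆ S ∧ ∀ p ∈ S, ∃ q ∈ D, p ≤ q := by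
  classical
  set d : ℚ → ℝ := fun r => if h : ∃ s ∈ S, (r : ℝ) < s then h.choose else 0 with hd
  refine ⟨{q | IsGreatest S q} ∪ d '' {r | ∃ s ∈ S, (r : ℝ) < s}, ?_, ?_, ?_⟩
  · refine Countable.union ?_ (Set.to_countable _ |>.image _)
    exact Set.Subsingleton.countable fun a ha b hb => ha.unique hb
  · rintro q (hq | ⟨r, hr, rfl⟩)
    · exact hq.1
    · rw [show d r = Exists.choose (show ∃ s ∈ S, (r : ℝ) < s from hr) from dif_pos hr]
      exact (Exists.choose_spec (show ∃ s ∈ S, (r : ℝ) < s from hr)).1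
  · intro p hp
    by_cases hg : IsGreatest S p
    · exact ⟨p, Or.inl hg, le_rfl⟩
    · have : ∃ s ∈ S, p < s := by
        by_contra hcon
        push Not at hcon
        exact hg ⟨hp, fun s hs => hcon s hs⟩
      obtain ⟨s, hs, hps⟩ := this
      obtain ⟨r, hr1, hr2⟩ := exists_rat_btwn hps
      have hr : ∃ s ∈ S, (r : ℝ) < s := ⟨s, hs, hr2⟩
      refine ⟨d r, Or.inr ⟨r, hr, rfl⟩, ?_⟩
      rw [show d r = hr.choose from dif_pos hr]
      linarith [hr.choose_spec.2]

end

end Pool.Agent.U530.SD
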